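import Pool.Agent.W996.MW.Stm3

set_option autoImplicit false

/-! Part MW-ARI2 of project MW (helper996). -/

namespace Pool.Agent.W854.MW

open Pool.Agent.W996.MW

lemma ari_one (n : ℕ) : (1 / 2 : ℝ) ≤ (1 - (1 / 2 : ℝ) ^ lq n) ^ ((10 * n) * (10 * n)) := by
  have h1 : 200 * n ^ 2 + 2 ≤ 2 ^ lq n := Nat.le_pow_clog (by norm_num) _
  have h2 : (200 * (n : ℝ) ^ 2 + 2) ≤ 2 ^ lq n := by exact_mod_cast h1
  have hpos : (0 : ℝ) < 200 * (n : ℝ) ^ 2 + 2 := by positivity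
  have h3 : (1 / 2 : ℝ) ^ lq n ≤ 1 / (200 * (n : ℝ) ^ 2 + 2) := by
    rw [one_div_pow]
    exact one_div_le_one_div_of_le hpos h2
  have h0 : (0 : ℝ) ≤ (1 / 2 : ℝ) ^ lq n := by positivity
  have hle1 : (1 / 2 : ℝ) ^ lq n ≤ 1 := pow_le_one₀ (by norm_num) (by norm_num)
  have hb := one_add_mul_le_pow (a := -((1 / 2 : ℝ) ^ lq n)) (by linarith) ((10 * n) * (10 * n))
  have h4 : (1 : ℝ) + (((10 * n) * (10 * n) : ℕ) : ℝ) * -((1 / 2 : ℝ) ^ lq n)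
      ≤ (1 - (1 / 2 : ℝ) ^ lq n) ^ ((10 * n) * (10 * n)) := by
    have e : (1 : ℝ) - (1 / 2 : ℝ) ^ lq n = 1 + -((1 / 2 : ℝ) ^ lq n) := by ring
    rw [e]; exact hb
  refine le_trans ?_ h4
  have h5 : (((10 * n) * (10 * n) : ℕ) : ℝ) = 100 * (n : ℝ) ^ 2 := by push_cast; ring
  rw [h5]
  have h6 : 100 * (n : ℝ) ^ 2 * (1 / 2 : ℝ) ^ lq n
      ≤ 100 * (n : ℝ) ^ 2 * (1 / (200 * (n : ℝ) ^ 2 + 2)) :=
    mul_le_mul_of_nonneg_left h3 (by positivity)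
  have h7 : 100 * (n : ℝ) ^ 2 * (1 / (200 * (n : ℝ) ^ 2 + 2)) ≤ 1 / 2 := by
    rw [mul_one_div, div_le_div_iff₀ hpos (by norm_num)]
    nlinarith [sq_nonneg (n : ℝ)]
  linarith

lemma exp_bound : (3 : ℝ) ≤ Real.exp (7 / 5) := by
  have h1 : Real.exp (7 / 5) = Real.exp 1 * Real.exp (2 / 5) := by
    rw [← Real.exp_add]; norm_num
  have h2 : (2.7182818283 : ℝ) < Real.exp 1 := Real.exp_one_gt_d9
  have h3 : (1 : ℝ) + 2 / 5 ≤ Real.exp (2 / 5) := by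
    have := Real.add_one_le_exp (2 / 5 : ℝ)
    linarith
  rw [h1]
  nlinarith

lemma ari_three : (1 - (1 / 96) * (2 / 3 : ℝ) ^ 10) ^ 8192 ≤ 1 / 3 := by
  have h1 : 1 - (1 / 96) * (2 / 3 : ℝ) ^ 10 ≤ Real.exp (-((1 / 96) * (2 / 3 : ℝ) ^ 10)) :=
    Real.one_sub_le_exp_neg _
  have h0 : (0 : ℝ) ≤ 1 - (1 / 96) * (2 / 3 : ℝ) ^ 10 := by norm_num
  calc (1 - (1 / 96) * (2 / 3 : ℝ) ^ 10) ^ 8192
      ≤ (Real.exp (-((1 / 96) * (2 / 3 : ℝ) ^ 10))) ^ 8192 := pow_le_pow_left₀ h0 h1 _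
    _ = Real.exp (((8192 : ℕ) : ℝ) * (-((1 / 96) * (2 / 3 : ℝ) ^ 10))) := by
        rw [Real.exp_nat_mul]
    _ ≤ Real.exp (-(7 / 5)) := by
        apply Real.exp_le_exp.2
        norm_num
    _ ≤ 1 / 3 := by
        rw [Real.exp_neg, ← one_div]
        exact one_div_le_one_div_of_le (by norm_num) exp_bound

theorem ARI2 : Pool.Agent.W996.MW.S_ARI2 :=
  ⟨ari_one, by norm_num, ari_three⟩

end Pool.Agent.W854.MW
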