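import Pool.Agent.W996.MW.Stm3

/-! MW-FLAT. -/

namespace Pool.Agent.W996.MW

private lemma flat_pick {ι : Type} [Fintype ι] [DecidableEq ι] (v : ι → ℂ) (g : ι → ℝ) (a : ℝ)
    (ha : 0 < a) (hN : (Fintype.card ι : ℝ) ≤ 48 * a ^ 2)
    (hg : ∀ S : Finset ι, ∑ i ∈ S, g i ≤ ‖∑ i ∈ S, v i‖)
    (hsum : a ≤ ∑ i, max (g i) 0) :
    ∃ S : Finset ι, S.Nonempty ∧ (S.card : ℝ) ≤ 48 * ‖∑ i ∈ S, v i‖ ^ 2 := by
  classical
  let S : Finset ι := Finset.univ.filter (fun i => 0 < g i)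
  have h1 : ∑ i, max (g i) 0 = ∑ i ∈ S, g i := by
    rw [Finset.sum_filter]
    apply Finset.sum_congr rfl
    intro i _
    split_ifs with h
    · exact max_eq_left h.le
    · exact max_eq_right (not_lt.1 h)
  rw [h1] at hsum
  refine ⟨S, ?_, ?_⟩
  · by_contra hne
    rw [Finset.not_nonempty_iff_eq_empty] at hne
    rw [hne] at hsum
    simp at hsum
    linarith
  · have h2 : a ≤ ‖∑ i ∈ S, v i‖ := hsum.trans (hg S)
    have h3 : (S.card : ℝ) ≤ Fintype.card ι := by exact_mod_cast Finset.card_le_univ S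
    have h4 : a ^ 2 ≤ ‖∑ i ∈ S, v i‖ ^ 2 := pow_le_pow_left₀ ha.le h2 2
    linarith

theorem flat : S_FLAT := by
  intro ι _ _ v hv h4
  classical
  have hne : Nonempty ι := by
    by_contra hcon
    rw [not_nonempty_iff] at hcon
    simp [normSq] at hv
  have hN : (0 : ℝ) < Fintype.card ι := by exact_mod_cast Fintype.card_pos
  set A1 : ℝ := ∑ i, ‖v i‖ with hA1
  set A3 : ℝ := ∑ i, ‖v i‖ ^ 3 with hA3
  have hA2 : ∑ i, ‖v i‖ ^ 2 = 1 := hv
  have hA1n : 0 ≤ A1 := Finset.sum_nonneg fun i _ => norm_nonneg _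
  have hA3n : 0 ≤ A3 := Finset.sum_nonneg fun i _ => by positivity
  have c1 : 1 ≤ A1 * A3 := by
    have h := Finset.sum_mul_sq_le_sq_mul_sq Finset.univ (fun i => Real.sqrt ‖v i‖)
      (fun i => ‖v i‖ * Real.sqrt ‖v i‖)
    have e1 : ∑ i, Real.sqrt ‖v i‖ * (‖v i‖ * Real.sqrt ‖v i‖) = 1 := by
      rw [← hA2]
      apply Finset.sum_congr rfl
      intro i _
      have := Real.mul_self_sqrt (norm_nonneg (v i))
      calc Real.sqrt ‖v i‖ * (‖v i‖ * Real.sqrt ‖v i‖)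
          = ‖v i‖ * (Real.sqrt ‖v i‖ * Real.sqrt ‖v i‖) := by ring
        _ = ‖v i‖ ^ 2 := by rw [this]; ring
    have e2 : ∑ i, Real.sqrt ‖v i‖ ^ 2 = A1 := by
      apply Finset.sum_congr rfl
      intro i _
      exact Real.sq_sqrt (norm_nonneg _)
    have e3 : ∑ i, (‖v i‖ * Real.sqrt ‖v i‖) ^ 2 = A3 := by
      apply Finset.sum_congr rfl
      intro i _
      rw [mul_pow, Real.sq_sqrt (norm_nonneg _)]
      ring
    rw [e1, e2, e3] at h
    linarith
  have c2 : A3 ^ 2 ≤ 3 / (Fintype.card ι : ℝ) := by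
    have h := Finset.sum_mul_sq_le_sq_mul_sq Finset.univ (fun i => ‖v i‖)
      (fun i => ‖v i‖ ^ 2)
    have e1 : ∑ i, ‖v i‖ * ‖v i‖ ^ 2 = A3 := by
      apply Finset.sum_congr rfl
      intro i _
      ring
    have e3 : ∑ i, (‖v i‖ ^ 2) ^ 2 = ∑ i, ‖v i‖ ^ 4 := by
      apply Finset.sum_congr rfl
      intro i _
      ring
    rw [e1, hA2, e3, one_mul] at h
    exact h.trans h4
  have c3 : (Fintype.card ι : ℝ) ≤ 3 * A1 ^ 2 := by
    have h1 : 1 ≤ A1 ^ 2 * A3 ^ 2 := by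
      have : 1 ^ 2 ≤ (A1 * A3) ^ 2 := pow_le_pow_left₀ zero_le_one c1 2
      rw [mul_pow] at this
      linarith
    have h2 : A1 ^ 2 * A3 ^ 2 ≤ A1 ^ 2 * (3 / (Fintype.card ι : ℝ)) :=
      mul_le_mul_of_nonneg_left c2 (by positivity)
    have h3 : 1 ≤ A1 ^ 2 * (3 / (Fintype.card ι : ℝ)) := h1.trans h2
    have h5 : A1 ^ 2 * (3 / (Fintype.card ι : ℝ)) = (3 * A1 ^ 2) / (Fintype.card ι : ℝ) := by ring
    rw [h5, le_div_iff₀ hN] at h3
    linarith
  have hA1p : 0 < A1 := by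
    rcases hA1n.eq_or_lt with h | h
    · rw [← h] at c3
      norm_num at c3
    · exact h
  have hN48 : (Fintype.card ι : ℝ) ≤ 48 * (A1 / 4) ^ 2 := by
    have : 48 * (A1 / 4) ^ 2 = 3 * A1 ^ 2 := by ring
    rw [this]; exact c3
  have hre : ∀ S : Finset ι, ∑ i ∈ S, (v i).re = (∑ i ∈ S, v i).re := fun S => by simp
  have him : ∀ S : Finset ι, ∑ i ∈ S, (v i).im = (∑ i ∈ S, v i).im := fun S => by simp
  have hsplit : A1 ≤ (∑ i, max ((v i).re) 0) + (∑ i, max (-(v i).re) 0) +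
      (∑ i, max ((v i).im) 0) + ∑ i, max (-(v i).im) 0 := by
    rw [← Finset.sum_add_distrib, ← Finset.sum_add_distrib, ← Finset.sum_add_distrib]
    apply Finset.sum_le_sum
    intro i _
    have h1 := Complex.norm_le_abs_re_add_abs_im (v i)
    have habs : ∀ x : ℝ, |x| = max x 0 + max (-x) 0 := by
      intro x
      rcases le_total 0 x with h | h
      · rw [abs_of_nonneg h, max_eq_left h, max_eq_right (by linarith)]; ring
      · rw [abs_of_nonpos h, max_eq_right h, max_eq_left (by linarith)]; ring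
    rw [habs, habs] at h1
    linarith
  by_cases b1 : A1 / 4 ≤ ∑ i, max ((v i).re) 0
  · exact flat_pick v (fun i => (v i).re) (A1 / 4) (by linarith) hN48 (fun S => by
      rw [hre]; exact (le_abs_self _).trans (Complex.abs_re_le_norm _)) b1
  by_cases b2 : A1 / 4 ≤ ∑ i, max (-(v i).re) 0
  · exact flat_pick v (fun i => -(v i).re) (A1 / 4) (by linarith) hN48 (fun S => by
      rw [Finset.sum_neg_distrib, hre]
      exact (neg_le_abs _).trans (Complex.abs_re_le_norm _)) b2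
  by_cases b3 : A1 / 4 ≤ ∑ i, max ((v i).im) 0
  · exact flat_pick v (fun i => (v i).im) (A1 / 4) (by linarith) hN48 (fun S => by
      rw [him]; exact (le_abs_self _).trans (Complex.abs_im_le_norm _)) b3
  have b4 : A1 / 4 ≤ ∑ i, max (-(v i).im) 0 := by
    push Not at b1 b2 b3
    linarith
  exact flat_pick v (fun i => -(v i).im) (A1 / 4) (by linarith) hN48 (fun S => by
      rw [Finset.sum_neg_distrib, him]
      exact (neg_le_abs _).trans (Complex.abs_im_le_norm _)) b4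

end Pool.Agent.W996.MW
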