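import Pool.Agent.W996.MW.Stm3

open scoped ComplexOrder Matrix

namespace Pool.Agent.W706.MW

open Pool.Agent.W996.MW

variable {ι : Type*} [Fintype ι]

open scoped MatrixOrder in
theorem psd_factor {A : Matrix ι ι ℂ} (hA : A.PosSemidef) : ∃ B : Matrix ι ι ℂ, A = Bᴴ * B := by
  classical
  obtain ⟨B, hB⟩ := CStarAlgebra.nonneg_iff_eq_star_mul_self.mp hA.nonneg
  exact ⟨B, hB⟩

/-- Cauchy–Schwarz. -/
theorem cs (x y : ι → ℂ) : ‖star x ⬝ᵥ y‖ ^ 2 ≤ normSq x * normSq y := by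
  have h1 : ‖star x ⬝ᵥ y‖ ≤ ∑ i, ‖x i‖ * ‖y i‖ := by
    unfold dotProduct
    refine (norm_sum_le _ _).trans (le_of_eq ?_)
    refine Finset.sum_congr rfl fun i _ => ?_
    rw [norm_mul]
    simp
  have h2 := Finset.sum_mul_sq_le_sq_mul_sq Finset.univ (fun i => ‖x i‖) (fun i => ‖y i‖)
  calc ‖star x ⬝ᵥ y‖ ^ 2 ≤ (∑ i, ‖x i‖ * ‖y i‖) ^ 2 :=
        pow_le_pow_left₀ (norm_nonneg _) h1 2
    _ ≤ _ := h2

theorem dot_factor {ι' : Type*} [Fintype ι'] (B : Matrix ι ι' ℂ) (x y : ι' → ℂ) :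
    star x ⬝ᵥ ((Bᴴ * B) *ᵥ y) = star (B *ᵥ x) ⬝ᵥ (B *ᵥ y) := by
  rw [← Matrix.mulVec_mulVec, Matrix.dotProduct_mulVec, Matrix.star_mulVec]

theorem self_dot (x : ι → ℂ) : star x ⬝ᵥ x = ((normSq x : ℝ) : ℂ) := by
  unfold dotProduct normSq
  rw [Complex.ofReal_sum]
  refine Finset.sum_congr rfl fun i _ => ?_
  rw [Pi.star_apply, RCLike.star_def]
  rw [Complex.conj_mul']
  push_cast
  rfl

theorem accept_factor {ι' : Type*} [Fintype ι'] (B : Matrix ι ι' ℂ) (x : ι' → ℂ) :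
    accept (Bᴴ * B) x = normSq (B *ᵥ x) := by
  unfold accept
  rw [dot_factor, self_dot, Complex.ofReal_re]

theorem normSq_nonneg (x : ι → ℂ) : 0 ≤ normSq x :=
  Finset.sum_nonneg fun i _ => sq_nonneg _

theorem OPT3 : S_OPT3 := by
  intro ι ι' _ _ _ _ _ W hW C hC hLB A ψ hA hψ
  obtain ⟨F, hF⟩ := psd_factor hA
  set G : Matrix ι ι' ℂ := F * Wᴴ with hG
  have hB : W * A * Wᴴ = Gᴴ * G := by
    rw [hG, hF, Matrix.conjTranspose_mul, Matrix.conjTranspose_conjTranspose]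
    simp only [Matrix.mul_assoc]
  have hGW : G * W = F := by
    rw [hG, Matrix.mul_assoc, hW, Matrix.mul_one]
  have hWA : W *ᵥ (A *ᵥ ψ) = (Gᴴ * G) *ᵥ (W *ᵥ ψ) := by
    rw [Matrix.mulVec_mulVec, Matrix.mulVec_mulVec, Matrix.mul_assoc, hGW, hG,
      Matrix.conjTranspose_mul, Matrix.conjTranspose_conjTranspose, hF]
    simp only [Matrix.mul_assoc]
  have hacc : accept A ψ = normSq (F *ᵥ ψ) := by
    rw [hF, accept_factor]
  have haccB : ∀ y : ι' → ℂ, accept (W * A * Wᴴ) y = normSq (G *ᵥ y) := by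
    intro y
    rw [hB, accept_factor]
  have hdot : star ψ ⬝ᵥ (A *ᵥ ψ) = ((accept A ψ : ℝ) : ℂ) := by
    rw [hacc, hF, dot_factor, self_dot]
  have hnn : 0 ≤ accept A ψ := by
    rw [hacc]
    exact normSq_nonneg _
  rcases hnn.eq_or_lt with h0 | h0
  · obtain ⟨i⟩ := (inferInstance : Nonempty ι')
    refine ⟨{i}, Finset.singleton_nonempty i, ?_⟩
    rw [← h0, haccB]
    exact mul_nonneg hC.le (normSq_nonneg _)
  set χ : ι → ℂ := A *ᵥ ψ with hχ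
  have h5 : accept A ψ ^ 2 ≤ normSq χ := by
    have h6 := cs ψ χ
    rw [hdot, hψ, one_mul, Complex.norm_real, Real.norm_eq_abs, sq_abs] at h6
    exact h6
  have hχpos : 0 < normSq χ := lt_of_lt_of_le (by positivity) h5
  set r : ℝ := (Real.sqrt (normSq χ))⁻¹ with hr
  have hr2 : r ^ 2 = (normSq χ)⁻¹ := by
    rw [hr, inv_pow, Real.sq_sqrt hχpos.le]
  have hunit : normSq ((r : ℂ) • χ) = 1 := by
    have : normSq ((r : ℂ) • χ) = r ^ 2 * normSq χ := by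
      unfold normSq
      rw [Finset.mul_sum]
      refine Finset.sum_congr rfl fun i _ => ?_
      rw [Pi.smul_apply, smul_eq_mul, norm_mul, Complex.norm_real, mul_pow, Real.norm_eq_abs,
        sq_abs]
    rw [this, hr2]
    exact inv_mul_cancel₀ hχpos.ne'
  obtain ⟨S, hS, hSb⟩ := hLB ((r : ℂ) • χ) hunit
  refine ⟨S, hS, ?_⟩
  have hc : (0 : ℝ) < (S.card : ℝ) := by exact_mod_cast hS.card_pos
  have hSb2 : (S.card : ℝ) * normSq χ ≤ C * ‖∑ i ∈ S, (W *ᵥ χ) i‖ ^ 2 := by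
    have e1 : ∑ i ∈ S, (W *ᵥ ((r : ℂ) • χ)) i = (r : ℂ) * ∑ i ∈ S, (W *ᵥ χ) i := by
      rw [Matrix.mulVec_smul, Finset.mul_sum]
      rfl
    rw [e1, norm_mul, mul_pow, Complex.norm_real, Real.norm_eq_abs, sq_abs, hr2] at hSb
    have h7 := mul_le_mul_of_nonneg_right hSb hχpos.le
    have e2 : C * ((normSq χ)⁻¹ * ‖∑ i ∈ S, (W *ᵥ χ) i‖ ^ 2) * normSq χ =
        C * ‖∑ i ∈ S, (W *ᵥ χ) i‖ ^ 2 := by
      field_simp
    rw [e2] at h7
    exact h7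
  -- the overlap
  have hov : star (subsetState S) ⬝ᵥ (W *ᵥ χ) =
      (((Real.sqrt (S.card : ℝ))⁻¹ : ℝ) : ℂ) * ∑ i ∈ S, (W *ᵥ χ) i := by
    unfold dotProduct subsetState
    rw [Finset.mul_sum, ← Finset.sum_subset (Finset.subset_univ S)]
    · refine Finset.sum_congr rfl fun i hi => ?_
      rw [Pi.star_apply, if_pos hi, RCLike.star_def, Complex.conj_ofReal]
    · intro i _ hi
      rw [Pi.star_apply, if_neg hi]
      simp
  have h1 : ‖star (subsetState S) ⬝ᵥ (W *ᵥ χ)‖ ^ 2 ≤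
      accept (W * A * Wᴴ) (subsetState S) * accept A ψ := by
    rw [haccB, hacc]
    conv_lhs => rw [hWA, dot_factor, Matrix.mulVec_mulVec, hGW]
    exact cs _ _
  have h2 : ‖star (subsetState S) ⬝ᵥ (W *ᵥ χ)‖ ^ 2 =
      ‖∑ i ∈ S, (W *ᵥ χ) i‖ ^ 2 / (S.card : ℝ) := by
    rw [hov, norm_mul, mul_pow, Complex.norm_real, Real.norm_eq_abs, sq_abs, inv_pow,
      Real.sq_sqrt hc.le]
    field_simp
  have h3 : normSq χ ≤ C * (accept (W * A * Wᴴ) (subsetState S) * accept A ψ) := by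
    have h4 : normSq χ ≤ C * (‖∑ i ∈ S, (W *ᵥ χ) i‖ ^ 2 / (S.card : ℝ)) := by
      rw [← mul_div_assoc, le_div_iff₀ hc]
      linarith
    rw [← h2] at h4
    exact h4.trans (mul_le_mul_of_nonneg_left h1 hC.le)
  have h7 : accept A ψ * accept A ψ ≤
      C * accept (W * A * Wᴴ) (subsetState S) * accept A ψ := by
    nlinarith
  exact le_of_mul_le_mul_right h7 h0

end Pool.Agent.W706.MW
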