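import Pool.Agent.W996.MW.Stm3

set_option autoImplicit false
set_option linter.unusedSectionVars false

namespace Pool.Agent.W520.MW

open Pool.Agent.W996.MW Finset ComplexConjugate

variable {κ : Type} [Fintype κ] [DecidableEq κ]

noncomputable def chi (B : κ × κ → Bool) (x : κ → Bool) : ℂ :=
  ∏ p : κ × κ, (if B p ∧ x p.1 ∧ x p.2 then (-1 : ℂ) else 1)

noncomputable def sg (p : κ × κ) (x : κ → Bool) : ℂ := if (x p.1 && x p.2) then (-1 : ℂ) else 1

lemma chi_conj (B : κ × κ → Bool) (x : κ → Bool) : conj (chi B x) = chi B x := by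
  unfold chi
  rw [map_prod]
  refine Finset.prod_congr rfl (fun p _ => ?_)
  split_ifs <;> simp

lemma swap (g : κ × κ → Bool → ℂ) :
    ∑ B : κ × κ → Bool, ∏ p, g p (B p) = ∏ p, (g p true + g p false) := by
  have h := Finset.sum_prod_piFinset (Finset.univ : Finset Bool) g
  rw [Fintype.piFinset_univ] at h
  rw [h]
  exact Finset.prod_congr rfl (fun p _ => Fintype.sum_bool _)

lemma sum_chi (x y z w : κ → Bool) :
    ∑ B : κ × κ → Bool, chi B x * chi B y * (chi B z * chi B w) =
      ∏ p : κ × κ, (1 + sg p x * sg p y * (sg p z * sg p w)) := by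
  let g : κ × κ → Bool → ℂ := fun p b =>
        (if b ∧ x p.1 ∧ x p.2 then (-1 : ℂ) else 1) * (if b ∧ y p.1 ∧ y p.2 then (-1 : ℂ) else 1) *
        ((if b ∧ z p.1 ∧ z p.2 then (-1 : ℂ) else 1) *
          (if b ∧ w p.1 ∧ w p.2 then (-1 : ℂ) else 1))
  have h : ∀ B : κ × κ → Bool, chi B x * chi B y * (chi B z * chi B w) =
      ∏ p : κ × κ, g p (B p) := by
    intro B
    simp only [chi, g, ← Finset.prod_mul_distrib]
  refine (Finset.sum_congr rfl (fun B _ => h B)).trans ((swap g).trans ?_)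
  refine Finset.prod_congr rfl (fun p _ => ?_)
  simp [sg, g]
  ring

lemma four {X : Type} [Fintype X] (f g h k : X → ℂ) :
    ((∑ x, f x) * ∑ y, g y) * ((∑ z, h z) * ∑ w, k w) =
      ∑ x, ∑ y, ∑ z, ∑ w, (f x * g y) * (h z * k w) := by
  have e1 : (∑ x, f x) * ∑ y, g y = ∑ x, ∑ y, f x * g y := Finset.sum_mul_sum _ _ _ _
  have e2 : (∑ z, h z) * ∑ w, k w = ∑ z, ∑ w, h z * k w := Finset.sum_mul_sum _ _ _ _
  rw [e1, Finset.sum_mul]
  refine Finset.sum_congr rfl (fun x _ => ?_)
  rw [Finset.sum_mul]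
  refine Finset.sum_congr rfl (fun y _ => ?_)
  rw [e2, Finset.mul_sum]
  refine Finset.sum_congr rfl (fun z _ => ?_)
  rw [Finset.mul_sum]

lemma sg_norm (p : κ × κ) (x : κ → Bool) : ‖sg p x‖ = 1 := by
  unfold sg; split_ifs <;> simp

lemma T_norm (x y z w : κ → Bool) :
    ‖∏ p : κ × κ, (1 + sg p x * sg p y * (sg p z * sg p w))‖ ≤
      (2 : ℝ) ^ (Fintype.card κ * Fintype.card κ) := by
  rw [norm_prod]
  calc ∏ p : κ × κ, ‖1 + sg p x * sg p y * (sg p z * sg p w)‖
      ≤ ∏ p : κ × κ, (2 : ℝ) := by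
        refine Finset.prod_le_prod (fun _ _ => norm_nonneg _) (fun p _ => ?_)
        refine (norm_add_le _ _).trans ?_
        simp only [norm_mul, sg_norm, norm_one]
        norm_num
    _ = _ := by rw [Finset.prod_const, Finset.card_univ, Fintype.card_prod]

lemma bits1 : ∀ a b c d a' b' c' d' : Bool,
    xor (xor (a && a) (b && b)) (xor (c && c) (d && d)) = false →
    xor (xor (a' && a') (b' && b')) (xor (c' && c') (d' && d')) = false →
    xor (xor (a && a') (b && b')) (xor (c && c') (d && d')) = false →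
    a ≠ c → b = c → (b' = c' ∧ a' = d') := by decide

lemma bits2 : ∀ a b c d a' b' c' d' : Bool,
    xor (xor (a && a) (b && b)) (xor (c && c) (d && d)) = false →
    xor (xor (a' && a') (b' && b')) (xor (c' && c') (d' && d')) = false →
    xor (xor (a && a') (b && b')) (xor (c && c') (d && d')) = false →
    a ≠ c → b ≠ c → (a' = b' ∧ c' = d') := by decide

lemma bits3 : ∀ a b c d : Bool,
    xor (xor (a && a) (b && b)) (xor (c && c) (d && d)) = false → a = c → b = d := by decide

lemma bits0 (A B C D : Bool)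
    (h : (1 : ℂ) + (if A then (-1 : ℂ) else 1) * (if B then (-1 : ℂ) else 1) *
      ((if C then (-1 : ℂ) else 1) * (if D then (-1 : ℂ) else 1)) ≠ 0) :
    xor (xor A B) (xor C D) = false := by
  revert h
  cases A <;> cases B <;> cases C <;> cases D <;> simp

lemma patterns (x y z w : κ → Bool)
    (h : ∏ p : κ × κ, (1 + sg p x * sg p y * (sg p z * sg p w)) ≠ 0) :
    (x = z ∧ y = w) ∨ (x = y ∧ z = w) ∨ (x = w ∧ y = z) := by
  have hp : ∀ i j : κ, xor (xor (x i && x j) (y i && y j)) (xor (z i && z j) (w i && w j)) = false := by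
    intro i j
    exact bits0 _ _ _ _ (Finset.prod_ne_zero_iff.1 h (i, j) (Finset.mem_univ _))
  by_cases hu : ∀ i, x i = z i
  · left
    exact ⟨funext hu, funext fun i => bits3 _ _ _ _ (hp i i) (hu i)⟩
  · right
    push Not at hu
    obtain ⟨i, hi⟩ := hu
    by_cases hv : y i = z i
    · right
      have h1 := fun j => bits1 _ _ _ _ _ _ _ _ (hp i i) (hp j j) (hp i j) hi hv
      exact ⟨funext fun j => (h1 j).2, funext fun j => (h1 j).1⟩
    · left
      have h1 := fun j => bits2 _ _ _ _ _ _ _ _ (hp i i) (hp j j) (hp i j) hi hv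
      exact ⟨funext fun j => (h1 j).1, funext fun j => (h1 j).2⟩

/-- The main sum. -/
lemma main (ψ : (κ → Bool) → ℂ) (hψ : normSq ψ = 1) :
    ∑ B : κ × κ → Bool, ‖∑ x, chi B x * ψ x‖ ^ 4 ≤
      3 * (2 : ℝ) ^ (Fintype.card κ * Fintype.card κ) := by
  set N : ℝ := (2 : ℝ) ^ (Fintype.card κ * Fintype.card κ) with hN
  have hN0 : 0 ≤ N := by positivity
  set a : (κ → Bool) → ℝ := fun x => ‖ψ x‖ with ha
  have ha0 : ∀ x, 0 ≤ a x := fun x => norm_nonneg _
  have hsum1 : ∑ x, a x ^ 2 = 1 := hψ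
  have e1 : ((∑ B : κ × κ → Bool, ‖∑ x, chi B x * ψ x‖ ^ 4 : ℝ) : ℂ) =
      ∑ x, ∑ y, ∑ z, ∑ w, (ψ x * conj (ψ y) * (ψ z * conj (ψ w))) *
        ∏ p : κ × κ, (1 + sg p x * sg p y * (sg p z * sg p w)) := by
    have hB : ∀ B : κ × κ → Bool, ((‖∑ x, chi B x * ψ x‖ ^ 4 : ℝ) : ℂ) =
        ∑ x, ∑ y, ∑ z, ∑ w, (ψ x * conj (ψ y) * (ψ z * conj (ψ w))) *
          (chi B x * chi B y * (chi B z * chi B w)) := by
      intro B
      have h1 : ((‖∑ x, chi B x * ψ x‖ ^ 4 : ℝ) : ℂ) =
          ((∑ x, chi B x * ψ x) * (∑ y, chi B y * conj (ψ y))) *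
          ((∑ z, chi B z * ψ z) * (∑ w, chi B w * conj (ψ w))) := by
        have h2 : (∑ y, chi B y * conj (ψ y)) = conj (∑ x, chi B x * ψ x) := by
          rw [map_sum]
          exact Finset.sum_congr rfl (fun y _ => by rw [map_mul, chi_conj])
        rw [h2, Complex.mul_conj, Complex.normSq_eq_norm_sq]
        push_cast
        ring
      rw [h1, four]
      refine Finset.sum_congr rfl (fun x _ => Finset.sum_congr rfl (fun y _ =>
        Finset.sum_congr rfl (fun z _ => Finset.sum_congr rfl (fun w _ => ?_))))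
      ring
    rw [Complex.ofReal_sum, Finset.sum_congr rfl (fun B _ => hB B)]
    rw [Finset.sum_comm]
    refine Finset.sum_congr rfl (fun x _ => ?_)
    rw [Finset.sum_comm]
    refine Finset.sum_congr rfl (fun y _ => ?_)
    rw [Finset.sum_comm]
    refine Finset.sum_congr rfl (fun z _ => ?_)
    rw [Finset.sum_comm]
    refine Finset.sum_congr rfl (fun w _ => ?_)
    rw [← Finset.mul_sum, sum_chi]
  have e2 : ∀ x y z w : κ → Bool, ‖(ψ x * conj (ψ y) * (ψ z * conj (ψ w))) *
        ∏ p : κ × κ, (1 + sg p x * sg p y * (sg p z * sg p w))‖ ≤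
      N * ((if x = z ∧ y = w then a x * a y * (a z * a w) else 0) +
        (if x = y ∧ z = w then a x * a y * (a z * a w) else 0) +
        (if x = w ∧ y = z then a x * a y * (a z * a w) else 0)) := by
    intro x y z w
    have hpos : 0 ≤ a x * a y * (a z * a w) :=
      mul_nonneg (mul_nonneg (ha0 _) (ha0 _)) (mul_nonneg (ha0 _) (ha0 _))
    have hnn : ∀ q : Prop, [Decidable q] → 0 ≤ (if q then a x * a y * (a z * a w) else 0) := by
      intro q _
      split_ifs
      · exact hpos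
      · exact le_rfl
    by_cases h : ∏ p : κ × κ, (1 + sg p x * sg p y * (sg p z * sg p w)) = 0
    · rw [h, mul_zero, norm_zero]
      exact mul_nonneg hN0 (add_nonneg (add_nonneg (hnn _) (hnn _)) (hnn _))
    · have h1 : ‖(ψ x * conj (ψ y) * (ψ z * conj (ψ w))) *
        ∏ p : κ × κ, (1 + sg p x * sg p y * (sg p z * sg p w))‖ ≤
          N * (a x * a y * (a z * a w)) := by
        rw [norm_mul, mul_comm N]
        refine mul_le_mul (le_of_eq ?_) (T_norm x y z w) (norm_nonneg _) hpos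
        simp [ha, norm_mul]
      refine h1.trans (mul_le_mul_of_nonneg_left ?_ hN0)
      rcases patterns x y z w h with h2 | h2 | h2
      · rw [if_pos h2]
        have := hnn (x = y ∧ z = w)
        have := hnn (x = w ∧ y = z)
        linarith
      · rw [if_pos h2]
        have := hnn (x = z ∧ y = w)
        have := hnn (x = w ∧ y = z)
        linarith
      · rw [if_pos h2]
        have := hnn (x = z ∧ y = w)
        have := hnn (x = y ∧ z = w)
        linarith
  have e3 : ∑ B : κ × κ → Bool, ‖∑ x, chi B x * ψ x‖ ^ 4 =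
      ‖((∑ B : κ × κ → Bool, ‖∑ x, chi B x * ψ x‖ ^ 4 : ℝ) : ℂ)‖ := by
    rw [Complex.norm_real, Real.norm_of_nonneg]
    exact Finset.sum_nonneg (fun _ _ => by positivity)
  rw [e3, e1]
  have p1 : ∑ x, ∑ y, ∑ z, ∑ w, (if x = z ∧ y = w then a x * a y * (a z * a w) else 0) = 1 := by
    have : ∀ x y : κ → Bool, ∑ z, ∑ w,
        (if x = z ∧ y = w then a x * a y * (a z * a w) else 0) = a x ^ 2 * a y ^ 2 := by
      intro x y
      simp only [ite_and, Finset.sum_ite_eq, Finset.mem_univ, if_true, Finset.sum_ite_irrel,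
        Finset.sum_const_zero]
      ring
    simp only [this]
    rw [← Finset.sum_mul_sum, hsum1, one_mul]
  have p2 : ∑ x, ∑ y, ∑ z, ∑ w, (if x = y ∧ z = w then a x * a y * (a z * a w) else 0) = 1 := by
    have : ∀ x y : κ → Bool, ∑ z, ∑ w,
        (if x = y ∧ z = w then a x * a y * (a z * a w) else 0) =
          if x = y then a x * a y else 0 := by
      intro x y
      by_cases hxy : x = y
      · simp only [hxy, true_and, Finset.sum_ite_eq, Finset.mem_univ, if_true]
        rw [← Finset.mul_sum]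
        have : ∑ i, a i * a i = 1 := by
          rw [← hsum1]; exact Finset.sum_congr rfl (fun _ _ => by ring)
        rw [this, mul_one]
      · simp [hxy]
    simp only [this, Finset.sum_ite_eq, Finset.mem_univ, if_true]
    rw [← hsum1]; exact Finset.sum_congr rfl (fun _ _ => by ring)
  have p3 : ∑ x, ∑ y, ∑ z, ∑ w, (if x = w ∧ y = z then a x * a y * (a z * a w) else 0) = 1 := by
    have : ∀ x y : κ → Bool, ∑ z, ∑ w,
        (if x = w ∧ y = z then a x * a y * (a z * a w) else 0) = a x ^ 2 * a y ^ 2 := by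
      intro x y
      simp only [ite_and, Finset.sum_ite_eq, Finset.mem_univ, if_true]
      ring
    simp only [this]
    rw [← Finset.sum_mul_sum, hsum1, one_mul]
  calc ‖∑ x, ∑ y, ∑ z, ∑ w, (ψ x * conj (ψ y) * (ψ z * conj (ψ w))) *
        ∏ p : κ × κ, (1 + sg p x * sg p y * (sg p z * sg p w))‖
      ≤ ∑ x, ∑ y, ∑ z, ∑ w, ‖(ψ x * conj (ψ y) * (ψ z * conj (ψ w))) *
        ∏ p : κ × κ, (1 + sg p x * sg p y * (sg p z * sg p w))‖ := by
        refine (norm_sum_le _ _).trans (Finset.sum_le_sum fun x _ => ?_)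
        refine (norm_sum_le _ _).trans (Finset.sum_le_sum fun y _ => ?_)
        refine (norm_sum_le _ _).trans (Finset.sum_le_sum fun z _ => ?_)
        exact norm_sum_le _ _
    _ ≤ ∑ x, ∑ y, ∑ z, ∑ w, N * ((if x = z ∧ y = w then a x * a y * (a z * a w) else 0) +
        (if x = y ∧ z = w then a x * a y * (a z * a w) else 0) +
        (if x = w ∧ y = z then a x * a y * (a z * a w) else 0)) :=
        Finset.sum_le_sum fun x _ => Finset.sum_le_sum fun y _ => Finset.sum_le_sum fun z _ =>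
          Finset.sum_le_sum fun w _ => e2 x y z w
    _ = N * (1 + 1 + 1) := by
        simp only [← Finset.mul_sum, Finset.sum_add_distrib, p1, p2, p3]
    _ = 3 * N := by ring

theorem V4 : S_V4 := by
  intro κ _ _ ψ hψ
  set N : ℝ := (2 : ℝ) ^ (Fintype.card κ * Fintype.card κ) with hN
  have hN0 : 0 < N := by positivity
  have h1 : ∀ B : κ × κ → Bool, ‖(quad κ).mulVec ψ B‖ ^ 4 =
      (N ^ 2)⁻¹ * ‖∑ x, chi B x * ψ x‖ ^ 4 := by
    intro B
    have h2 : (quad κ).mulVec ψ B = (((Real.sqrt N)⁻¹ : ℝ) : ℂ) * ∑ x, chi B x * ψ x := by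
      rw [Matrix.mulVec, dotProduct, Finset.mul_sum]
      refine Finset.sum_congr rfl (fun x _ => ?_)
      simp only [quad, chi, hN]
      ring
    rw [h2, norm_mul, mul_pow, Complex.norm_real, Real.norm_of_nonneg (by positivity), inv_pow]
    congr 2
    have : (Real.sqrt N) ^ 4 = ((Real.sqrt N) ^ 2) ^ 2 := by ring
    rw [this, Real.sq_sqrt hN0.le]
  have h3 := main ψ hψ
  rw [Finset.sum_congr rfl (fun B _ => h1 B), ← Finset.mul_sum, le_div_iff₀ hN0]
  rw [← hN] at h3
  calc (N ^ 2)⁻¹ * (∑ B : κ × κ → Bool, ‖∑ x, chi B x * ψ x‖ ^ 4) * N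
      ≤ (N ^ 2)⁻¹ * (3 * N) * N := by gcongr
    _ = 3 := by field_simp

end Pool.Agent.W520.MW
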