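import Pool.Agent.W996.MW.Stm3

open scoped ComplexOrder Matrix

namespace Pool.Agent.W555.MW

open Pool.Agent.W996.MW

theorem sum_pi {κ : Type} [Fintype κ] [DecidableEq κ] (f : κ × κ → Bool → ℂ) :
    ∑ B : κ × κ → Bool, ∏ p, f p (B p) = ∏ p, ∑ b, f p b := by
  rw [Finset.prod_univ_sum, Fintype.piFinset_univ]

theorem viso : Pool.Agent.W996.MW.S_VISO := by
  intro κ _ _
  set c : ℝ := (Real.sqrt ((2 : ℝ) ^ (Fintype.card κ * Fintype.card κ)))⁻¹ with hc
  have hcc : (c : ℂ) * (c : ℂ) * (2 : ℂ) ^ (Fintype.card κ * Fintype.card κ) = 1 := by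
    have h0 : (0 : ℝ) < (2 : ℝ) ^ (Fintype.card κ * Fintype.card κ) := by positivity
    have h1 : c * c * (2 : ℝ) ^ (Fintype.card κ * Fintype.card κ) = 1 := by
      rw [hc, ← mul_inv, Real.mul_self_sqrt h0.le]
      exact inv_mul_cancel₀ h0.ne'
    exact_mod_cast congrArg (fun t : ℝ => (t : ℂ)) h1
  ext x y
  rw [Matrix.mul_apply]
  have hterm : ∀ B : κ × κ → Bool, (quad κ)ᴴ x B * quad κ B y = (c : ℂ) * (c : ℂ) *
      ∏ p : κ × κ, ((if B p ∧ x p.1 ∧ x p.2 then (-1 : ℂ) else 1) *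
        (if B p ∧ y p.1 ∧ y p.2 then (-1 : ℂ) else 1)) := by
    intro B
    rw [Matrix.conjTranspose_apply]
    unfold quad
    rw [Finset.prod_mul_distrib]
    have h2 : star ((((Real.sqrt ((2 : ℝ) ^ (Fintype.card κ * Fintype.card κ)))⁻¹ : ℝ) : ℂ) *
        ∏ p : κ × κ, (if B p ∧ x p.1 ∧ x p.2 then (-1 : ℂ) else 1)) = (c : ℂ) *
        ∏ p : κ × κ, (if B p ∧ x p.1 ∧ x p.2 then (-1 : ℂ) else 1) := by
      rw [star_mul']
      congr 1
      · exact Complex.conj_ofReal _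
      · rw [star_prod]
        refine Finset.prod_congr rfl fun p _ => ?_
        split_ifs <;> simp
    rw [h2]
    ring
  rw [Finset.sum_congr rfl fun B _ => hterm B, ← Finset.mul_sum,
    sum_pi (fun p b => (if b ∧ x p.1 ∧ x p.2 then (-1 : ℂ) else 1) *
        (if b ∧ y p.1 ∧ y p.2 then (-1 : ℂ) else 1))]
  by_cases hxy : x = y
  · subst hxy
    rw [Matrix.one_apply_eq]
    have h3 : ∀ p : κ × κ, (∑ b : Bool, (if b ∧ x p.1 ∧ x p.2 then (-1 : ℂ) else 1) *
        (if b ∧ x p.1 ∧ x p.2 then (-1 : ℂ) else 1)) = 2 := by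
      intro p
      rw [Fintype.sum_bool]
      cases x p.1 <;> cases x p.2 <;> norm_num
    rw [Finset.prod_congr rfl fun p _ => h3 p, Finset.prod_const, Finset.card_univ,
      Fintype.card_prod]
    exact hcc
  · rw [Matrix.one_apply_ne hxy]
    obtain ⟨i, hi⟩ := Function.ne_iff.1 hxy
    rw [Finset.prod_eq_zero (Finset.mem_univ (i, i)), mul_zero]
    rw [Fintype.sum_bool]
    revert hi
    cases x i <;> cases y i <;> norm_num

end Pool.Agent.W555.MW
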