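import Pool.Agent.W996.MW.Stm3

open scoped ComplexOrder Matrix

namespace Pool.Agent.W159.MW.WOP

open Pool.Agent.W996.MW Matrix

theorem main : Pool.Agent.W996.MW.S_WOP := by
  intro ι ι' _ _ _ _ W hW A
  refine ⟨?_, ?_, ?_⟩
  · intro hA
    exact hA.mul_mul_conjTranspose_same W
  · intro s hs hA hsA
    have e : (s : ℂ) • (1 : Matrix ι' ι' ℂ) - W * A * Wᴴ =
        (s : ℂ) • ((1 - W * Wᴴ)ᴴ * (1 - W * Wᴴ)) + W * ((s : ℂ) • (1 : Matrix ι ι ℂ) - A) * Wᴴ := by
      have h1 : (1 - W * Wᴴ)ᴴ * (1 - W * Wᴴ) = 1 - W * Wᴴ := by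
        have h2 : (W * Wᴴ) * (W * Wᴴ) = W * Wᴴ := by
          calc (W * Wᴴ) * (W * Wᴴ) = W * (Wᴴ * W) * Wᴴ := by simp only [Matrix.mul_assoc]
            _ = W * Wᴴ := by rw [hW, Matrix.mul_one]
        rw [conjTranspose_sub, conjTranspose_one, conjTranspose_mul, conjTranspose_conjTranspose,
          sub_mul, one_mul, mul_sub, mul_one, h2]
        abel
      rw [h1, Matrix.mul_sub, Matrix.sub_mul, Matrix.mul_smul, Matrix.mul_one, Matrix.smul_mul,
        smul_sub]
      abel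
    rw [e]
    refine PosSemidef.add ?_ (hsA.mul_mul_conjTranspose_same W)
    exact (posSemidef_conjTranspose_mul_self _).smul (by exact_mod_cast hs)
  · intro φ
    unfold accept
    simp only [← Matrix.mulVec_mulVec, Matrix.star_mulVec, conjTranspose_conjTranspose,
      Matrix.dotProduct_mulVec, Matrix.vecMul_vecMul, Matrix.mul_assoc]

end Pool.Agent.W159.MW.WOP
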