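import Pool.Agent.W996.MW.Stm

/-!
# Project MW: small families of witness states
-/

open scoped ComplexOrder Matrix

namespace Pool.Agent.W996.MW

/-- MW-FAM: a state which has small overlap with each of `K` given states. -/
def S_FAM : Prop := ∀ (ι : Type) [Fintype ι] [DecidableEq ι] [Nonempty ι] (K : ℕ)
    (φ : Fin K → ι → ℂ), (∀ j, normSq (φ j) = 1) →
  ∃ ψ : ι → ℂ, normSq ψ = 1 ∧
    ∀ j, ‖star (φ j) ⬝ᵥ ψ‖ ^ 2 ≤ 2 * Real.log (4 * K + 1) / Fintype.card ι

end Pool.Agent.W996.MW
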