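import Pool.Agent.W996.MW.Stm
import Pool.Agent.W996.MW.Stm2

/-!
# Project MW: elementary facts on acceptance probabilities and assembly of the chain
-/

open scoped ComplexOrder Matrix

namespace Pool.Agent.W996.MW

variable {ι κ : Type*}

theorem accept_nonneg [Fintype ι] {A : Matrix ι ι ℂ} (hA : A.PosSemidef) (φ : ι → ℂ) :
    0 ≤ accept A φ := by
  have h := hA.dotProduct_mulVec_nonneg φ
  exact (Complex.le_def.1 h).1

theorem accept_one [Fintype ι] [DecidableEq ι] (φ : ι → ℂ) :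
    accept (1 : Matrix ι ι ℂ) φ = normSq φ := by
  unfold accept normSq
  rw [Matrix.one_mulVec]
  simp only [dotProduct, Pi.star_apply, Complex.re_sum]
  refine Finset.sum_congr rfl fun i _ => ?_
  rw [Complex.star_def, ← Complex.normSq_eq_conj_mul_self, Complex.ofReal_re,
    Complex.normSq_eq_norm_sq]

theorem accept_sub [Fintype ι] (A B : Matrix ι ι ℂ) (φ : ι → ℂ) :
    accept (A - B) φ = accept A φ - accept B φ := by
  unfold accept
  rw [Matrix.sub_mulVec, dotProduct_sub, Complex.sub_re]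

theorem accept_smul [Fintype ι] (s : ℝ) (A : Matrix ι ι ℂ) (φ : ι → ℂ) :
    accept ((s : ℂ) • A) φ = s * accept A φ := by
  unfold accept
  rw [Matrix.smul_mulVec, dotProduct_smul, smul_eq_mul, Complex.re_ofReal_mul]

theorem accept_smul_vec [Fintype ι] (r : ℝ) (A : Matrix ι ι ℂ) (φ : ι → ℂ) :
    accept A ((r : ℂ) • φ) = r ^ 2 * accept A φ := by
  unfold accept
  rw [Matrix.mulVec_smul, dotProduct_smul, star_smul, smul_dotProduct, smul_eq_mul, smul_eq_mul,
    Complex.star_def, Complex.conj_ofReal, ← mul_assoc, ← Complex.ofReal_mul,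
    Complex.re_ofReal_mul, pow_two]

theorem normSq_smul [Fintype ι] (r : ℝ) (φ : ι → ℂ) :
    normSq ((r : ℂ) • φ) = r ^ 2 * normSq φ := by
  unfold normSq
  rw [Finset.mul_sum]
  refine Finset.sum_congr rfl fun i _ => ?_
  rw [Pi.smul_apply, smul_eq_mul, norm_mul, Complex.norm_real, mul_pow, Real.norm_eq_abs, sq_abs]

theorem normSq_nonneg [Fintype ι] (φ : ι → ℂ) : 0 ≤ normSq φ :=
  Finset.sum_nonneg fun _ _ => by positivity

theorem normSq_subsetState [Fintype ι] [DecidableEq ι] {S : Finset ι} (hS : S.Nonempty) :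
    normSq (subsetState S) = 1 := by
  unfold normSq subsetState
  have hc : (0 : ℝ) < S.card := by exact_mod_cast Finset.card_pos.2 hS
  rw [← Finset.sum_filter_add_sum_filter_not Finset.univ (fun i => i ∈ S)]
  have h1 : ∑ x ∈ Finset.univ.filter (fun i => i ∈ S),
      ‖(if x ∈ S then (((Real.sqrt (S.card : ℝ))⁻¹ : ℝ) : ℂ) else 0)‖ ^ 2 = 1 := by
    rw [Finset.sum_congr rfl (g := fun _ => ((S.card : ℝ))⁻¹)]
    · rw [Finset.sum_const, Finset.filter_mem_eq_inter, Finset.univ_inter, nsmul_eq_mul]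
      exact mul_inv_cancel₀ hc.ne'
    · intro x hx
      rw [if_pos (Finset.mem_filter.1 hx).2, Complex.norm_real, Real.norm_eq_abs, sq_abs, inv_pow,
        Real.sq_sqrt hc.le]
  have h2 : ∑ x ∈ Finset.univ.filter (fun i => ¬ i ∈ S),
      ‖(if x ∈ S then (((Real.sqrt (S.card : ℝ))⁻¹ : ℝ) : ℂ) else 0)‖ ^ 2 = 0 := by
    refine Finset.sum_eq_zero fun x hx => ?_
    rw [if_neg (Finset.mem_filter.1 hx).2]
    simp
  rw [h1, h2, add_zero]

/-- `⟨S|ψ⟩`. -/
theorem subset_dot [Fintype ι] [DecidableEq ι] (S : Finset ι) (ψ : ι → ℂ) :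
    star (subsetState S) ⬝ᵥ ψ = (((Real.sqrt (S.card : ℝ))⁻¹ : ℝ) : ℂ) * ∑ i ∈ S, ψ i := by
  unfold subsetState
  simp only [dotProduct, Pi.star_apply]
  rw [Finset.mul_sum, ← Finset.sum_filter_add_sum_filter_not Finset.univ (fun i => i ∈ S),
    Finset.filter_mem_eq_inter, Finset.univ_inter]
  rw [Finset.sum_eq_zero (s := Finset.univ.filter (fun i => ¬ i ∈ S)), add_zero]
  · refine Finset.sum_congr rfl fun i hi => ?_
    rw [if_pos hi, Complex.star_def, Complex.conj_ofReal]
  · intro x hx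
    rw [if_neg (Finset.mem_filter.1 hx).2]
    simp

theorem norm_subset_dot [Fintype ι] [DecidableEq ι] {S : Finset ι} (hS : S.Nonempty)
    (ψ : ι → ℂ) :
    (S.card : ℝ) * ‖star (subsetState S) ⬝ᵥ ψ‖ ^ 2 = ‖∑ i ∈ S, ψ i‖ ^ 2 := by
  have hc : (0 : ℝ) < S.card := by exact_mod_cast Finset.card_pos.2 hS
  rw [subset_dot, norm_mul, Complex.norm_real, mul_pow, Real.norm_eq_abs, sq_abs, inv_pow,
    Real.sq_sqrt hc.le, ← mul_assoc, mul_inv_cancel₀ hc.ne', one_mul]

/-- An operator bound from the acceptance probabilities of unit states. -/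
theorem psd_of_accept [Fintype ι] [DecidableEq ι] {A : Matrix ι ι ℂ} (hA : A.PosSemidef)
    {s : ℝ} (h : ∀ φ : ι → ℂ, normSq φ = 1 → accept A φ ≤ s) :
    ((s : ℂ) • (1 : Matrix ι ι ℂ) - A).PosSemidef := by
  have hH : ((s : ℂ) • (1 : Matrix ι ι ℂ) - A).IsHermitian := by
    refine Matrix.IsHermitian.sub ?_ hA.isHermitian
    unfold Matrix.IsHermitian
    rw [Matrix.conjTranspose_smul, Matrix.conjTranspose_one, Complex.star_def,
      Complex.conj_ofReal]
  refine Matrix.PosSemidef.of_dotProduct_mulVec_nonneg hH fun x => ?_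
  have him : (star x ⬝ᵥ (((s : ℂ) • (1 : Matrix ι ι ℂ) - A) *ᵥ x)).im = 0 := by
    have := hH.im_star_dotProduct_mulVec_self x
    simpa using this
  rw [Complex.le_def]
  refine ⟨?_, by simpa using him.symm⟩
  change 0 ≤ accept ((s : ℂ) • (1 : Matrix ι ι ℂ) - A) x
  rw [accept_sub, accept_smul, accept_one]
  by_cases hx : normSq x = 0
  · have hx0 : x = 0 := by
      funext i
      have h1 : ‖x i‖ ^ 2 ≤ normSq x :=
        Finset.single_le_sum (f := fun i => ‖x i‖ ^ 2) (fun _ _ => by positivity)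
          (Finset.mem_univ i)
      have h2 : ‖x i‖ ^ 2 = 0 := le_antisymm (h1.trans hx.le) (by positivity)
      simpa using h2
    rw [hx0]
    simp [accept, normSq]
  · have hpos : 0 < normSq x := lt_of_le_of_ne (normSq_nonneg x) (Ne.symm hx)
    set r : ℝ := (Real.sqrt (normSq x))⁻¹ with hr
    have hr2 : r ^ 2 = (normSq x)⁻¹ := by
      rw [hr, inv_pow, Real.sq_sqrt hpos.le]
    have h1 := h ((r : ℂ) • x) (by rw [normSq_smul, hr2]; exact inv_mul_cancel₀ hx)
    rw [accept_smul_vec, hr2] at h1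
    have h2 : accept A x ≤ s * normSq x := by
      have := mul_le_mul_of_nonneg_right h1 hpos.le
      rwa [mul_comm (normSq x)⁻¹, mul_assoc, inv_mul_cancel₀ hx, mul_one] at this
    linarith

/-- The acceptance probability of a unit state from an operator bound. -/
theorem accept_le_of_psd [Fintype ι] [DecidableEq ι] {A : Matrix ι ι ℂ} {s : ℝ}
    (h : ((s : ℂ) • (1 : Matrix ι ι ℂ) - A).PosSemidef) {φ : ι → ℂ} (hφ : normSq φ = 1) :
    accept A φ ≤ s := by
  have h1 := accept_nonneg h φ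
  rw [accept_sub, accept_smul, accept_one, hφ] at h1
  linarith

end Pool.Agent.W996.MW
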