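import Pool.Agent.W996.MW.Basic

/-!
# Project MW: assembly
-/

open scoped ComplexOrder Matrix

namespace Pool.Agent.W996.MW

/-- The transformed verifier: accept if at least one of `KK n` independent runs of the encoded
`kk n`-fold verifier accepts. -/
noncomputable def transform (n : ℕ) (E : Matrix (Fin n → Bool) (Fin n → Bool) ℂ) :
    Matrix (Fin (KK n) × ((Fin (kk n) × Fin n) × Bool × Fin (ll n)) → Bool)
      (Fin (KK n) × ((Fin (kk n) × Fin n) × Bool × Fin (ll n)) → Bool) ℂ :=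
  orPow (KK n) (encode (ll n) (tens (kk n) E))

/-- Number of positions of the transformed verifier. -/
theorem card_positions (n : ℕ) :
    Fintype.card (Fin (KK n) × ((Fin (kk n) × Fin n) × Bool × Fin (ll n))) =
      KK n * (kk n * n * (2 * ll n)) := by
  simp only [Fintype.card_prod, Fintype.card_fin, Fintype.card_bool]

theorem ll_pos (n : ℕ) : 1 ≤ ll n := Nat.clog_pos (by norm_num) (by omega)

theorem smul_one_iff {ι : Type*} [Fintype ι] [DecidableEq ι] (A : Matrix ι ι ℂ) :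
    (((1 : ℝ) : ℂ) • (1 : Matrix ι ι ℂ) - A).PosSemidef ↔ (1 - A).PosSemidef := by
  rw [Complex.ofReal_one, one_smul]

variable {κ : Type} [Fintype κ] [DecidableEq κ]

theorem isEffect_tens (hT : S_TEN) (K : ℕ) {A : Matrix (κ → Bool) (κ → Bool) ℂ}
    (hA : IsEffect A) : IsEffect (tens K A) := by
  refine ⟨(hT κ K A).1 hA.1, ?_⟩
  have h := (hT κ K A).2.1 1 zero_le_one hA.1 ((smul_one_iff A).2 hA.2)
  rw [one_pow] at h
  exact (smul_one_iff _).1 h

theorem isEffect_encode (hI : S_ISO) (hE : S_ENCOP) {l : ℕ} (hl : 1 ≤ l)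
    {A : Matrix (κ → Bool) (κ → Bool) ℂ}
    (hA : IsEffect A) : IsEffect (encode l A) := by
  have hW := hI κ l hl
  refine ⟨(hE κ l hW A).1 hA.1, ?_⟩
  exact (smul_one_iff _).1 ((hE κ l hW A).2.1 1 zero_le_one hA.1 ((smul_one_iff A).2 hA.2))

theorem isEffect_compl {ι : Type*} [Fintype ι] [DecidableEq ι] {A : Matrix ι ι ℂ}
    (hA : IsEffect A) : IsEffect (1 - A) :=
  ⟨hA.2, by rw [sub_sub_cancel]; exact hA.1⟩

theorem isEffect_orPow (hT : S_TEN) (K : ℕ) {A : Matrix (κ → Bool) (κ → Bool) ℂ}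
    (hA : IsEffect A) : IsEffect (orPow K A) :=
  isEffect_compl (isEffect_tens hT K (isEffect_compl hA))

theorem isEffect_transform (hT : S_TEN) (hI : S_ISO) (hE : S_ENCOP) (n : ℕ)
    {E : Matrix (Fin n → Bool) (Fin n → Bool) ℂ} (h : IsEffect E) :
    IsEffect (transform n E) :=
  isEffect_orPow hT _ (isEffect_encode hI hE (ll_pos n) (isEffect_tens hT _ h))

attribute [local irreducible] kk ll KK

/-- Soundness. -/
theorem sound (hT : S_TEN) (hI : S_ISO) (hE : S_ENCOP) (hA : S_ARI) (n : ℕ)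
    {E : Matrix (Fin n → Bool) (Fin n → Bool) ℂ} (h : IsEffect E)
    (hs : ∀ ψ : (Fin n → Bool) → ℂ, normSq ψ = 1 → accept E ψ ≤ 1 / 3)
    (φ : (Fin (KK n) × ((Fin (kk n) × Fin n) × Bool × Fin (ll n)) → Bool) → ℂ)
    (hφ : normSq φ = 1) : accept (transform n E) φ ≤ 1 / 3 := by
  have h1 := psd_of_accept h.1 hs
  have h2 := (hT (Fin n) (kk n) E).2.1 (1 / 3) (by norm_num) h.1 h1
  have hA1 : (tens (kk n) E).PosSemidef := (hT (Fin n) (kk n) E).1 h.1
  have hW := hI (Fin (kk n) × Fin n) (ll n) (ll_pos n)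
  set s : ℝ := (1 / 3) ^ kk n with hsdef
  have hs0 : 0 ≤ s := by positivity
  have hs1 : s ≤ 1 := pow_le_one₀ (by norm_num) (by norm_num)
  have h3 := (hE _ (ll n) hW (tens (kk n) E)).2.1 s hs0 hA1 h2
  set B := encode (ll n) (tens (kk n) E) with hB
  have h4 : ((1 - B) - ((1 - s : ℝ) : ℂ) •
      (1 : Matrix ((Fin (kk n) × Fin n) × Bool × Fin (ll n) → Bool) _ ℂ)).PosSemidef := by
    have : (1 - B) - ((1 - s : ℝ) : ℂ) •
      (1 : Matrix ((Fin (kk n) × Fin n) × Bool × Fin (ll n) → Bool) _ ℂ) =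
        (s : ℂ) • (1 : Matrix _ _ ℂ) - B := by
      rw [Complex.ofReal_sub, Complex.ofReal_one, sub_smul, one_smul]
      abel
    rw [this]
    exact h3
  have h5 := (hT _ (KK n) (1 - B)).2.2 (1 - s) (by linarith) h4
  have h6 := accept_nonneg h5 φ
  rw [accept_sub, accept_smul, accept_one, hφ, mul_one] at h6
  have h7 : 1 - (KK n : ℝ) * s ≤ (1 - s) ^ KK n := by
    have := one_add_mul_le_pow (a := -s) (by linarith) (KK n)
    calc 1 - (KK n : ℝ) * s = 1 + (KK n : ℝ) * (-s) := by ring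
      _ ≤ (1 + -s) ^ KK n := this
      _ = (1 - s) ^ KK n := by rw [← sub_eq_add_neg]
  have h8 := (hA n).2.1
  have h9 : accept (transform n E) φ = 1 - accept (tens (KK n) (1 - B)) φ := by
    unfold transform orPow
    rw [accept_sub, accept_one, hφ]
  rw [h9]
  linarith

/-- Completeness. -/
theorem complete (hL : S_LB) (hO : S_OPT) (hP : S_PROD) (hI : S_ISO)
    (hC : S_ENC) (hE : S_ENCOP) (hT : S_TEN) (hA : S_ARI) (n : ℕ)
    {E : Matrix (Fin n → Bool) (Fin n → Bool) ℂ} (h : IsEffect E)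
    (ψ : (Fin n → Bool) → ℂ) (hψ : normSq ψ = 1) (hc : 2 / 3 ≤ accept E ψ) :
    ∃ D : Finset (Fin (KK n) × ((Fin (kk n) × Fin n) × Bool × Fin (ll n)) → Bool),
      D.Nonempty ∧ IsLowerSet (D : Set
        (Fin (KK n) × ((Fin (kk n) × Fin n) × Bool × Fin (ll n)) → Bool)) ∧
      2 / 3 ≤ accept (transform n E) (subsetState D) := by
  have hA1 : (tens (kk n) E).PosSemidef := (hT (Fin n) (kk n) E).1 h.1
  set k := kk n with hk
  set φ : (Fin k × Fin n → Bool) → ℂ := fun x => ∏ j : Fin k, ψ (fun i => x (j, i)) with hφ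
  have h1 : accept (tens k E) φ = accept E ψ ^ k := (hP (Fin n) k).1 E ψ h.1.isHermitian
  have h2 : normSq φ = 1 := by
    rw [hφ, (hP (Fin n) k).2.1 ψ, hψ, one_pow]
  obtain ⟨S, hS, hS1⟩ := hO hL (Fin k × Fin n → Bool) (tens k E) φ hA1 h2
  obtain ⟨D, hD, hDl, r, hr0, hr1, hr2⟩ := hC (Fin k × Fin n) (ll n) (ll_pos n) S hS
  have hW := hI (Fin k × Fin n) (ll n) (ll_pos n)
  have hAri := hA n
  set B := encode (ll n) (tens k E) with hB
  have hBe : IsEffect B := isEffect_encode hI hE (ll_pos n) (isEffect_tens hT _ h)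
  have hcard : Real.log (Fintype.card (Fin k × Fin n → Bool)) ≤ ((k * n : ℕ) : ℝ) := by
    rw [Fintype.card_fun, Fintype.card_bool, Fintype.card_prod, Fintype.card_fin,
      Fintype.card_fin]
    push_cast
    rw [Real.log_pow]
    have : Real.log 2 ≤ 1 := by
      have := Real.log_two_lt_d9
      linarith
    have hkn : (0 : ℝ) ≤ ((k * n : ℕ) : ℝ) := Nat.cast_nonneg _
    push_cast at hkn ⊢
    nlinarith
  have haS : 0 ≤ accept (tens k E) (subsetState S) := accept_nonneg hA1 _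
  have hN0 : (0 : ℝ) ≤ ((k * n : ℕ) : ℝ) := Nat.cast_nonneg _
  have hN : (0 : ℝ) < 5 + ((k * n : ℕ) : ℝ) := by linarith
  have h3 : (2 / 3 : ℝ) ^ k / (5 + ((k * n : ℕ) : ℝ)) ≤ accept (tens k E) (subsetState S) := by
    rw [div_le_iff₀ hN]
    calc (2 / 3 : ℝ) ^ k ≤ accept E ψ ^ k := pow_le_pow_left₀ (by norm_num) hc k
      _ = accept (tens k E) φ := h1.symm
      _ ≤ (5 + Real.log (Fintype.card (Fin k × Fin n → Bool))) *
          accept (tens k E) (subsetState S) := hS1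
      _ ≤ (5 + ((k * n : ℕ) : ℝ)) * accept (tens k E) (subsetState S) := by
          apply mul_le_mul_of_nonneg_right _ haS
          linarith
      _ = _ := mul_comm _ _
  have h4 : accept B (subsetState D) = r ^ 2 * accept (tens k E) (subsetState S) := by
    rw [hB, (hE (Fin k × Fin n) (ll n) hW (tens k E)).2.2, hr2, accept_smul_vec]
  have hr3 : (1 / 2 : ℝ) ≤ r ^ 2 := by
    refine hAri.1.trans ?_
    have : Fintype.card (Fin k × Fin n) = kk n * n := by
      rw [Fintype.card_prod, Fintype.card_fin, Fintype.card_fin]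
    rw [this] at hr1
    exact hr1
  set b : ℝ := (1 / 2) * (2 / 3 : ℝ) ^ k / (5 + ((k * n : ℕ) : ℝ)) with hb
  have h5 : b ≤ accept B (subsetState D) := by
    rw [h4, hb, mul_div_assoc]
    exact mul_le_mul hr3 h3 (div_nonneg (pow_nonneg (by norm_num) _) hN.le) (sq_nonneg r)
  have hD1 : normSq (subsetState D) = 1 := normSq_subsetState hD
  have h6 : accept (1 - B) (subsetState D) = 1 - accept B (subsetState D) := by
    rw [accept_sub, accept_one, hD1]
  have h7 : 0 ≤ accept (1 - B) (subsetState D) := accept_nonneg hBe.2 _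
  have hP2 := hP ((Fin k × Fin n) × Bool × Fin (ll n)) (KK n)
  refine ⟨spow (KK n) D, hP2.2.2.2.1 D hD, hP2.2.2.2.2 D hDl, ?_⟩
  have h8 : accept (tens (KK n) (1 - B)) (subsetState (spow (KK n) D)) =
      accept (1 - B) (subsetState D) ^ KK n := by
    rw [← hP2.2.2.1 D]
    exact hP2.1 (1 - B) (subsetState D) hBe.2.isHermitian
  have h9 : accept (transform n E) (subsetState (spow (KK n) D)) =
      1 - accept (1 - B) (subsetState D) ^ KK n := by
    unfold transform orPow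
    rw [accept_sub, accept_one, normSq_subsetState (hP2.2.2.2.1 D hD), h8]
  rw [h9]
  have h10 : accept (1 - B) (subsetState D) ^ KK n ≤ (1 - b) ^ KK n :=
    pow_le_pow_left₀ h7 (by linarith) _
  have h11 := hAri.2.2.1
  have h12 : (1 - b) ^ KK n ≤ 1 / 3 := by
    rw [hb]
    exact h11
  linarith

/-- Lower bound for the overlap with subset states on `n` qubits. -/
theorem overlap_lower (hL : S_LB) (n : ℕ) (ψ : (Fin n → Bool) → ℂ) (hψ : normSq ψ = 1) :
    ∃ S : Finset (Fin n → Bool), S.Nonempty ∧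
      1 / (n * Real.log 2 + 5) ≤ ‖star (subsetState S) ⬝ᵥ ψ‖ ^ 2 := by
  obtain ⟨S, hS, h⟩ := hL (Fin n → Bool) ψ
  refine ⟨S, hS, ?_⟩
  have hc : (0 : ℝ) < S.card := by exact_mod_cast Finset.card_pos.2 hS
  have hl : Real.log (Fintype.card (Fin n → Bool)) = n * Real.log 2 := by
    rw [Fintype.card_fun, Fintype.card_bool, Fintype.card_fin]
    push_cast
    rw [Real.log_pow]
  rw [hψ, hl, ← norm_subset_dot hS, mul_one] at h
  have hpos : (0 : ℝ) < n * Real.log 2 + 5 := by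
    have := Real.log_pos (by norm_num : (1 : ℝ) < 2)
    positivity
  rw [div_le_iff₀ hpos]
  have h' : (S.card : ℝ) * 1 ≤ S.card * ((n * Real.log 2 + 5) *
      ‖star (subsetState S) ⬝ᵥ ψ‖ ^ 2) := by
    calc (S.card : ℝ) * 1 = S.card := mul_one _
      _ ≤ _ := h
      _ = _ := by ring
  have := le_of_mul_le_mul_left h' hc
  linarith

/-- The constant cannot be improved beyond `1 / ((n - 2) log 2)`. -/
theorem overlap_upper (hU : S_UB) (n : ℕ) (hn : 3 ≤ n) :
    ∃ ψ : (Fin n → Bool) → ℂ, normSq ψ = 1 ∧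
      ∀ S : Finset (Fin n → Bool), S.Nonempty →
        ‖star (subsetState S) ⬝ᵥ ψ‖ ^ 2 ≤ 1 / ((n - 2) * Real.log 2) := by
  obtain ⟨ψ, hψ, h⟩ := hU (2 ^ (n - 2)) Nat.one_le_two_pow
  have hcard : Fintype.card (Fin n → Bool) = Fintype.card (Fin (2 ^ (n - 2)) × Fin 4) := by
    rw [Fintype.card_fun, Fintype.card_bool, Fintype.card_fin, Fintype.card_prod,
      Fintype.card_fin, Fintype.card_fin]
    obtain ⟨m, rfl⟩ := Nat.exists_eq_add_of_le hn
    rw [show 3 + m - 2 = m + 1 by omega]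
    ring
  let e := Fintype.equivOfCardEq hcard
  refine ⟨fun x => ψ (e x), ?_, fun S hS => ?_⟩
  · rw [← hψ]
    unfold normSq
    exact Equiv.sum_comp e fun i => ‖ψ i‖ ^ 2
  · have hc : (0 : ℝ) < S.card := by exact_mod_cast Finset.card_pos.2 hS
    have h1 := h (S.map e.toEmbedding)
    rw [Finset.sum_map, Finset.card_map] at h1
    have h2 : ‖∑ x ∈ S, ψ (e.toEmbedding x)‖ ^ 2 = (S.card : ℝ) *
        ‖star (subsetState S) ⬝ᵥ (fun x => ψ (e x))‖ ^ 2 := by
      rw [norm_subset_dot hS]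
      rfl
    rw [h2] at h1
    have hlog2 : 0 < Real.log 2 := Real.log_pos (by norm_num)
    have hn' : (3 : ℝ) ≤ n := by exact_mod_cast hn
    have hlog : ((n : ℝ) - 2) * Real.log 2 ≤ Real.log (((2 ^ (n - 2) : ℕ) : ℝ) + 1) := by
      have h3 : ((n : ℝ) - 2) * Real.log 2 = Real.log ((2 : ℝ) ^ (n - 2)) := by
        rw [Real.log_pow, Nat.cast_sub (by omega)]
        norm_num
      rw [h3]
      apply Real.log_le_log (by positivity)
      push_cast
      linarith
    have hpos : 0 < ((n : ℝ) - 2) * Real.log 2 := mul_pos (by linarith) hlog2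
    rw [le_div_iff₀ hpos]
    set X := ‖star (subsetState S) ⬝ᵥ (fun x => ψ (e x))‖ ^ 2 with hX
    have hX0 : 0 ≤ X := by positivity
    have h4 : (S.card : ℝ) * (X * (((n : ℝ) - 2) * Real.log 2)) ≤ S.card * 1 := by
      calc (S.card : ℝ) * (X * (((n : ℝ) - 2) * Real.log 2))
          = (((n : ℝ) - 2) * Real.log 2) * (S.card * X) := by ring
        _ ≤ Real.log (((2 ^ (n - 2) : ℕ) : ℝ) + 1) * (S.card * X) :=
            mul_le_mul_of_nonneg_right hlog (by positivity)
        _ ≤ S.card := h1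
        _ = S.card * 1 := (mul_one _).symm
    exact le_of_mul_le_mul_left h4 hc

/-- One run of the encoded verifier. -/
theorem single (hL : S_LB) (hO : S_OPT) (hI : S_ISO) (hC : S_ENC) (hE : S_ENCOP) (n l : ℕ)
    (hl : 1 ≤ l) {E : Matrix (Fin n → Bool) (Fin n → Bool) ℂ} (h : IsEffect E) :
    IsEffect (encode l E) ∧
    (∀ s : ℝ, 0 ≤ s → (∀ ψ : (Fin n → Bool) → ℂ, normSq ψ = 1 → accept E ψ ≤ s) →
      ∀ φ : (Fin n × Bool × Fin l → Bool) → ℂ, normSq φ = 1 → accept (encode l E) φ ≤ s) ∧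
    (∀ ψ : (Fin n → Bool) → ℂ, normSq ψ = 1 →
      ∃ D : Finset (Fin n × Bool × Fin l → Bool), D.Nonempty ∧
        IsLowerSet (D : Set (Fin n × Bool × Fin l → Bool)) ∧
        (1 - (1 / 2 : ℝ) ^ l) ^ n / (n * Real.log 2 + 5) * accept E ψ ≤
          accept (encode l E) (subsetState D)) := by
  have hW := hI (Fin n) l hl
  refine ⟨isEffect_encode hI hE hl h, fun s hs hb φ hφ => ?_, fun ψ hψ => ?_⟩
  · exact accept_le_of_psd ((hE (Fin n) l hW E).2.1 s hs h.1 (psd_of_accept h.1 hb)) hφ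
  · obtain ⟨S, hS, hS1⟩ := hO hL (Fin n → Bool) E ψ h.1 hψ
    obtain ⟨D, hD, hDl, r, hr0, hr1, hr2⟩ := hC (Fin n) l hl S hS
    refine ⟨D, hD, hDl, ?_⟩
    rw [(hE (Fin n) l hW E).2.2, hr2, accept_smul_vec]
    have hcl : Real.log (Fintype.card (Fin n → Bool)) = n * Real.log 2 := by
      rw [Fintype.card_fun, Fintype.card_bool, Fintype.card_fin]
      push_cast
      rw [Real.log_pow]
    rw [hcl] at hS1
    rw [Fintype.card_fin] at hr1
    have hpos : (0 : ℝ) < n * Real.log 2 + 5 := by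
      have := Real.log_pos (by norm_num : (1 : ℝ) < 2)
      positivity
    have haS : 0 ≤ accept E (subsetState S) := accept_nonneg h.1 _
    have hq : (0 : ℝ) ≤ (1 - (1 / 2 : ℝ) ^ l) ^ n := by
      apply pow_nonneg
      have : (1 / 2 : ℝ) ^ l ≤ 1 := pow_le_one₀ (by norm_num) (by norm_num)
      linarith
    calc (1 - (1 / 2 : ℝ) ^ l) ^ n / (n * Real.log 2 + 5) * accept E ψ
        ≤ (1 - (1 / 2 : ℝ) ^ l) ^ n / (n * Real.log 2 + 5) *
          ((5 + n * Real.log 2) * accept E (subsetState S)) :=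
          mul_le_mul_of_nonneg_left hS1 (div_nonneg hq hpos.le)
      _ = (1 - (1 / 2 : ℝ) ^ l) ^ n * accept E (subsetState S) := by
          field_simp
          ring
      _ ≤ r ^ 2 * accept E (subsetState S) := mul_le_mul_of_nonneg_right hr1 haS

end Pool.Agent.W996.MW
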