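import Pool.Agent.W996.MW.Stm

/-!
# Project MW, part 2: the quadratic phase encoding
-/

open scoped ComplexOrder Matrix

namespace Pool.Agent.W996.MW

/-- The quadratic phase encoding: `|x⟩` goes to `2^(-m²/2) Σ_B (-1)^(xᵀ B x) |B⟩`, where `m = |κ|`
and `B` runs over all `m × m` matrices of bits. -/
noncomputable def quad (κ : Type*) [Fintype κ] : Matrix (κ × κ → Bool) (κ → Bool) ℂ :=
  fun B x => (((Real.sqrt ((2 : ℝ) ^ (Fintype.card κ * Fintype.card κ)))⁻¹ : ℝ) : ℂ) *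
    ∏ p : κ × κ, (if B p ∧ x p.1 ∧ x p.2 then (-1 : ℂ) else 1)

/-- MW-VISO. -/
def S_VISO : Prop := ∀ (κ : Type) [Fintype κ] [DecidableEq κ], (quad κ)ᴴ * quad κ = 1

/-- MW-V4. -/
def S_V4 : Prop := ∀ (κ : Type) [Fintype κ] [DecidableEq κ] (ψ : (κ → Bool) → ℂ),
  normSq ψ = 1 →
  ∑ B : κ × κ → Bool, ‖(quad κ *ᵥ ψ) B‖ ^ 4 ≤ 3 / (2 : ℝ) ^ (Fintype.card κ * Fintype.card κ)

/-- MW-FLAT. -/
def S_FLAT : Prop := ∀ (ι : Type) [Fintype ι] [DecidableEq ι] (v : ι → ℂ), normSq v = 1 →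
  ∑ i, ‖v i‖ ^ 4 ≤ 3 / (Fintype.card ι : ℝ) →
  ∃ S : Finset ι, S.Nonempty ∧ (S.card : ℝ) ≤ 48 * ‖∑ i ∈ S, v i‖ ^ 2

/-- MW-WOP: conjugation with an isometry. -/
def S_WOP : Prop := ∀ (ι ι' : Type) [Fintype ι] [DecidableEq ι] [Fintype ι'] [DecidableEq ι']
    (W : Matrix ι' ι ℂ), Wᴴ * W = 1 → ∀ A : Matrix ι ι ℂ,
  (A.PosSemidef → (W * A * Wᴴ).PosSemidef) ∧
  (∀ s : ℝ, 0 ≤ s → A.PosSemidef → ((s : ℂ) • (1 : Matrix ι ι ℂ) - A).PosSemidef →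
    ((s : ℂ) • (1 : Matrix ι' ι' ℂ) - W * A * Wᴴ).PosSemidef) ∧
  (∀ φ : ι' → ℂ, accept (W * A * Wᴴ) φ = accept A (Wᴴ *ᵥ φ))

/-- MW-OPT3: from one state to a subset state after an isometry. -/
def S_OPT3 : Prop := ∀ (ι ι' : Type) [Fintype ι] [DecidableEq ι] [Fintype ι'] [DecidableEq ι']
    [Nonempty ι'] (W : Matrix ι' ι ℂ), Wᴴ * W = 1 → ∀ C : ℝ, 0 < C →
  (∀ ψ : ι → ℂ, normSq ψ = 1 →
    ∃ S : Finset ι', S.Nonempty ∧ (S.card : ℝ) ≤ C * ‖∑ i ∈ S, (W *ᵥ ψ) i‖ ^ 2) →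
  ∀ (A : Matrix ι ι ℂ) (ψ : ι → ℂ), A.PosSemidef → normSq ψ = 1 →
  ∃ S : Finset ι', S.Nonempty ∧ accept A ψ ≤ C * accept (W * A * Wᴴ) (subsetState S)

/-- The length of the rows of marks (second version). -/
def lq (n : ℕ) : ℕ := Nat.clog 2 (200 * n ^ 2 + 2)

/-- MW-ARI2. -/
def S_ARI2 : Prop := (∀ n : ℕ, (1 / 2 : ℝ) ≤ (1 - (1 / 2 : ℝ) ^ lq n) ^ ((10 * n) * (10 * n))) ∧
  (8192 : ℝ) * (1 / 3 : ℝ) ^ 10 ≤ 1 / 3 ∧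
  (1 - (1 / 96) * (2 / 3 : ℝ) ^ 10) ^ 8192 ≤ 1 / 3

end Pool.Agent.W996.MW
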