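import Pool.Agent.W996.MW.Main
import Pool.Agent.W996.MW.Stm3

/-!
# Project MW: assembly of part 2 (constant overlap after the quadratic phase encoding)
-/

open scoped ComplexOrder Matrix

namespace Pool.Agent.W996.MW

/-- The verifier `V A V*` after the quadratic phase encoding `V`. -/
noncomputable def phased {κ : Type*} [Fintype κ] [DecidableEq κ]
    (A : Matrix (κ → Bool) (κ → Bool) ℂ) : Matrix (κ × κ → Bool) (κ × κ → Bool) ℂ :=
  quad κ * A * (quad κ)ᴴ

/-- The second transformation: accept if at least one of 8192 independent runs of the encoded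
10-fold verifier accepts. -/
noncomputable def transform2 (n : ℕ) (E : Matrix (Fin n → Bool) (Fin n → Bool) ℂ) :
    Matrix (Fin 8192 × (((Fin 10 × Fin n) × (Fin 10 × Fin n)) × Bool × Fin (lq n)) → Bool)
      (Fin 8192 × (((Fin 10 × Fin n) × (Fin 10 × Fin n)) × Bool × Fin (lq n)) → Bool) ℂ :=
  orPow 8192 (encode (lq n) (phased (tens 10 E)))

/-- Number of positions of the transformed verifier. -/
theorem card_positions2 (n : ℕ) :
    Fintype.card (Fin 8192 × (((Fin 10 × Fin n) × (Fin 10 × Fin n)) × Bool × Fin (lq n))) =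
      1638400 * n ^ 2 * lq n := by
  simp only [Fintype.card_prod, Fintype.card_fin, Fintype.card_bool]
  ring

theorem two_thirds {X Y : ℝ} (h8 : X ≤ 1 / 3) (h7 : 1 - X ≤ Y) : 2 / 3 ≤ Y := by linarith

theorem lq_pos (n : ℕ) : 1 ≤ lq n := Nat.clog_pos (by norm_num) (by omega)

theorem normSq_isometry {ι ι' : Type*} [Fintype ι] [Fintype ι'] [DecidableEq ι]
    (W : Matrix ι' ι ℂ) (hW : Wᴴ * W = 1) (ψ : ι → ℂ) : normSq (W *ᵥ ψ) = normSq ψ := by
  classical
  rw [← accept_one (W *ᵥ ψ), ← accept_one ψ]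
  unfold accept
  rw [Matrix.one_mulVec, Matrix.one_mulVec, Matrix.star_mulVec, ← Matrix.dotProduct_mulVec,
    Matrix.mulVec_mulVec, hW, Matrix.one_mulVec]

theorem accept_ge_of_psd {ι : Type*} [Fintype ι] [DecidableEq ι] {A : Matrix ι ι ℂ} {c : ℝ}
    (h : (A - (c : ℂ) • (1 : Matrix ι ι ℂ)).PosSemidef) {φ : ι → ℂ} (hφ : normSq φ = 1) :
    c ≤ accept A φ := by
  have h1 := accept_nonneg h φ
  rw [accept_sub, accept_smul, accept_one, hφ] at h1
  linarith

section general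

variable {κ : Type} [Fintype κ] [DecidableEq κ]

theorem or_sound (hT : S_TEN) (K : ℕ) {B : Matrix (κ → Bool) (κ → Bool) ℂ} {s : ℝ}
    (hs1 : s ≤ 1) (hs0 : 0 ≤ s) (hB : ((s : ℂ) • (1 : Matrix (κ → Bool) (κ → Bool) ℂ) - B).PosSemidef)
    (φ : (Fin K × κ → Bool) → ℂ) (hφ : normSq φ = 1) : accept (orPow K B) φ ≤ K * s := by
  have h4 : ((1 - B) - ((1 - s : ℝ) : ℂ) •
      (1 : Matrix (κ → Bool) (κ → Bool) ℂ)).PosSemidef := by
    have : (1 - B) - ((1 - s : ℝ) : ℂ) • (1 : Matrix (κ → Bool) (κ → Bool) ℂ) =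
        (s : ℂ) • (1 : Matrix (κ → Bool) (κ → Bool) ℂ) - B := by
      rw [Complex.ofReal_sub, Complex.ofReal_one, sub_smul, one_smul]
      abel
    rw [this]
    exact hB
  have h5 := (hT κ K (1 - B)).2.2 (1 - s) (by linarith) h4
  have h6 := accept_ge_of_psd h5 hφ
  have h7 : 1 - (K : ℝ) * s ≤ (1 - s) ^ K := by
    have := one_add_mul_le_pow (a := -s) (by linarith) K
    calc 1 - (K : ℝ) * s = 1 + (K : ℝ) * (-s) := by ring
      _ ≤ (1 + -s) ^ K := this
      _ = (1 - s) ^ K := by rw [← sub_eq_add_neg]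
  have h9 : accept (orPow K B) φ = 1 - accept (tens K (1 - B)) φ := by
    unfold orPow
    rw [accept_sub, accept_one, hφ]
  rw [h9]
  linarith

theorem or_complete (hP : S_PROD) (K : ℕ) {B : Matrix (κ → Bool) (κ → Bool) ℂ}
    (hB : IsEffect B) {D : Finset (κ → Bool)} (hD : D.Nonempty)
    (hDl : IsLowerSet (D : Set (κ → Bool))) {b : ℝ} (hb : b ≤ accept B (subsetState D)) :
    ∃ D' : Finset (Fin K × κ → Bool), D'.Nonempty ∧
      IsLowerSet (D' : Set (Fin K × κ → Bool)) ∧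
      1 - (1 - b) ^ K ≤ accept (orPow K B) (subsetState D') := by
  have hD1 : normSq (subsetState D) = 1 := normSq_subsetState hD
  have h6 : accept (1 - B) (subsetState D) = 1 - accept B (subsetState D) := by
    rw [accept_sub, accept_one, hD1]
  have h7 : 0 ≤ accept (1 - B) (subsetState D) := accept_nonneg hB.2 _
  have hP2 := hP κ K
  refine ⟨spow K D, hP2.2.2.2.1 D hD, hP2.2.2.2.2 D hDl, ?_⟩
  have h8 : accept (tens K (1 - B)) (subsetState (spow K D)) =
      accept (1 - B) (subsetState D) ^ K := by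
    rw [← hP2.2.2.1 D]
    exact hP2.1 (1 - B) (subsetState D) hB.2.isHermitian
  have h9 : accept (orPow K B) (subsetState (spow K D)) =
      1 - accept (1 - B) (subsetState D) ^ K := by
    unfold orPow
    rw [accept_sub, accept_one, normSq_subsetState (hP2.2.2.2.1 D hD), h8]
  rw [h9]
  have h10 : accept (1 - B) (subsetState D) ^ K ≤ (1 - b) ^ K :=
    pow_le_pow_left₀ h7 (by linarith) _
  linarith

/-- After the quadratic phase encoding every state has constant overlap with a subset state. -/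
theorem quad_subset (hV : S_VISO) (h4 : S_V4) (hF : S_FLAT) (ψ : (κ → Bool) → ℂ)
    (hψ : normSq ψ = 1) :
    ∃ S : Finset (κ × κ → Bool), S.Nonempty ∧
      (S.card : ℝ) ≤ 48 * ‖∑ i ∈ S, (quad κ *ᵥ ψ) i‖ ^ 2 := by
  refine hF _ (quad κ *ᵥ ψ) ?_ ?_
  · rw [normSq_isometry (quad κ) (hV κ), hψ]
  · refine (h4 κ ψ hψ).trans (le_of_eq ?_)
    rw [Fintype.card_fun, Fintype.card_bool, Fintype.card_prod]
    push_cast
    rfl

theorem isEffect_phased (hV : S_VISO) (hW : S_WOP) {A : Matrix (κ → Bool) (κ → Bool) ℂ}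
    (hA : IsEffect A) : IsEffect (phased A) := by
  have h := hW (κ → Bool) (κ × κ → Bool) (quad κ) (hV κ) A
  exact ⟨h.1 hA.1, (smul_one_iff _).1 (h.2.1 1 zero_le_one hA.1 ((smul_one_iff A).2 hA.2))⟩

/-- Completeness of the phase encoding followed by the monotone encoding. -/
theorem phased_encode_complete (hV : S_VISO) (h4 : S_V4) (hF : S_FLAT) (hO3 : S_OPT3)
    (hI : S_ISO) (hC : S_ENC) (hE : S_ENCOP) {l : ℕ} (hl : 1 ≤ l)
    {A : Matrix (κ → Bool) (κ → Bool) ℂ} (hA : A.PosSemidef) (hB : (phased A).PosSemidef)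
    (ψ : (κ → Bool) → ℂ) (hψ : normSq ψ = 1) :
    ∃ D : Finset ((κ × κ) × Bool × Fin l → Bool), D.Nonempty ∧
      IsLowerSet (D : Set ((κ × κ) × Bool × Fin l → Bool)) ∧
      (1 - (1 / 2 : ℝ) ^ l) ^ (Fintype.card κ * Fintype.card κ) / 48 * accept A ψ ≤
        accept (encode l (phased A)) (subsetState D) := by
  obtain ⟨S, hS, hS1⟩ := hO3 (κ → Bool) (κ × κ → Bool) (quad κ) (hV κ) 48 (by norm_num)
    (fun ψ hψ => quad_subset hV h4 hF ψ hψ) A ψ hA hψ
  obtain ⟨D, hD, hDl, r, hr0, hr1, hr2⟩ := hC (κ × κ) l hl S hS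
  have hW := hI (κ × κ) l hl
  refine ⟨D, hD, hDl, ?_⟩
  rw [(hE (κ × κ) l hW (phased A)).2.2, hr2, accept_smul_vec]
  rw [Fintype.card_prod] at hr1
  have haS : 0 ≤ accept (phased A) (subsetState S) := accept_nonneg hB _
  have hq : (0 : ℝ) ≤ (1 - (1 / 2 : ℝ) ^ l) ^ (Fintype.card κ * Fintype.card κ) := by
    apply pow_nonneg
    have : (1 / 2 : ℝ) ^ l ≤ 1 := pow_le_one₀ (by norm_num) (by norm_num)
    linarith
  have hS2 : accept A ψ ≤ 48 * accept (phased A) (subsetState S) := hS1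
  calc (1 - (1 / 2 : ℝ) ^ l) ^ (Fintype.card κ * Fintype.card κ) / 48 * accept A ψ
      ≤ (1 - (1 / 2 : ℝ) ^ l) ^ (Fintype.card κ * Fintype.card κ) / 48 *
        (48 * accept (phased A) (subsetState S)) :=
        mul_le_mul_of_nonneg_left hS2 (div_nonneg hq (by norm_num))
    _ = (1 - (1 / 2 : ℝ) ^ l) ^ (Fintype.card κ * Fintype.card κ) *
        accept (phased A) (subsetState S) := by ring
    _ ≤ r ^ 2 * accept (phased A) (subsetState S) := mul_le_mul_of_nonneg_right hr1 haS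

end general

/-- Constant squared overlap after the quadratic phase encoding. -/
theorem overlap_quad (hV : S_VISO) (h4 : S_V4) (hF : S_FLAT) (n : ℕ)
    (ψ : (Fin n → Bool) → ℂ) (hψ : normSq ψ = 1) :
    ∃ S : Finset (Fin n × Fin n → Bool), S.Nonempty ∧
      1 / 48 ≤ ‖star (subsetState S) ⬝ᵥ (quad (Fin n) *ᵥ ψ)‖ ^ 2 := by
  obtain ⟨S, hS, h⟩ := quad_subset hV h4 hF ψ hψ
  refine ⟨S, hS, ?_⟩
  have hc : (0 : ℝ) < S.card := by exact_mod_cast Finset.card_pos.2 hS
  rw [← norm_subset_dot hS] at h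
  have h' : (S.card : ℝ) * 1 ≤
      S.card * (48 * ‖star (subsetState S) ⬝ᵥ (quad (Fin n) *ᵥ ψ)‖ ^ 2) := by
    calc (S.card : ℝ) * 1 = S.card := mul_one _
      _ ≤ _ := h
      _ = _ := by ring
  have := le_of_mul_le_mul_left h' hc
  linarith

/-- One run of the doubly encoded verifier. -/
theorem single2 (hV : S_VISO) (h4 : S_V4) (hF : S_FLAT) (hW : S_WOP) (hO3 : S_OPT3)
    (hI : S_ISO) (hC : S_ENC) (hE : S_ENCOP) (n l : ℕ) (hl : 1 ≤ l)
    {E : Matrix (Fin n → Bool) (Fin n → Bool) ℂ} (h : IsEffect E) :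
    IsEffect (encode l (phased E)) ∧
    (∀ s : ℝ, 0 ≤ s → (∀ ψ : (Fin n → Bool) → ℂ, normSq ψ = 1 → accept E ψ ≤ s) →
      ∀ φ : ((Fin n × Fin n) × Bool × Fin l → Bool) → ℂ, normSq φ = 1 →
        accept (encode l (phased E)) φ ≤ s) ∧
    (∀ ψ : (Fin n → Bool) → ℂ, normSq ψ = 1 →
      ∃ D : Finset ((Fin n × Fin n) × Bool × Fin l → Bool), D.Nonempty ∧
        IsLowerSet (D : Set ((Fin n × Fin n) × Bool × Fin l → Bool)) ∧
        (1 - (1 / 2 : ℝ) ^ l) ^ (n * n) / 48 * accept E ψ ≤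
          accept (encode l (phased E)) (subsetState D)) := by
  have hp := isEffect_phased hV hW h
  have hwo := hW (Fin n → Bool) (Fin n × Fin n → Bool) (quad (Fin n)) (hV (Fin n)) E
  refine ⟨isEffect_encode hI hE hl hp, fun s hs hb φ hφ => ?_, fun ψ hψ => ?_⟩
  · have h1 := hwo.2.1 s hs h.1 (psd_of_accept h.1 hb)
    exact accept_le_of_psd
      ((hE (Fin n × Fin n) l (hI _ l hl) (phased E)).2.1 s hs hp.1 h1) hφ
  · have := phased_encode_complete hV h4 hF hO3 hI hC hE hl h.1 hp.1 ψ hψ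
    rw [Fintype.card_fin] at this
    exact this

/-- The second transformation gives an acceptance operator. -/
theorem isEffect_transform2 (hT : S_TEN) (hV : S_VISO) (hW : S_WOP) (hI : S_ISO)
    (hE : S_ENCOP) (n : ℕ) {E : Matrix (Fin n → Bool) (Fin n → Bool) ℂ} (h : IsEffect E) :
    IsEffect (transform2 n E) :=
  isEffect_orPow hT _ (isEffect_encode hI hE (lq_pos n)
    (isEffect_phased hV hW (isEffect_tens hT _ h)))

/-- Soundness of the second transformation. -/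
theorem sound2 (hT : S_TEN) (hV : S_VISO) (hW : S_WOP) (hI : S_ISO) (hE : S_ENCOP)
    (hA : S_ARI2) (n : ℕ) {E : Matrix (Fin n → Bool) (Fin n → Bool) ℂ} (h : IsEffect E)
    (hs : ∀ ψ : (Fin n → Bool) → ℂ, normSq ψ = 1 → accept E ψ ≤ 1 / 3)
    (φ : (Fin 8192 × (((Fin 10 × Fin n) × (Fin 10 × Fin n)) × Bool × Fin (lq n)) → Bool) → ℂ)
    (hφ : normSq φ = 1) : accept (transform2 n E) φ ≤ 1 / 3 := by
  have h1 := psd_of_accept h.1 hs
  have h2 := (hT (Fin n) 10 E).2.1 (1 / 3) (by norm_num) h.1 h1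
  have hA1 : (tens 10 E).PosSemidef := (hT (Fin n) 10 E).1 h.1
  have hs0 : (0 : ℝ) ≤ (1 / 3) ^ 10 := by positivity
  have hwo := hW _ _ (quad (Fin 10 × Fin n)) (hV (Fin 10 × Fin n)) (tens 10 E)
  have h3 := hwo.2.1 ((1 / 3) ^ 10) hs0 hA1 h2
  have h4 := (hE _ (lq n) (hI _ (lq n) (lq_pos n)) (phased (tens 10 E))).2.1 ((1 / 3) ^ 10) hs0
    (hwo.1 hA1) h3
  have h5 := or_sound hT 8192 (pow_le_one₀ (by norm_num) (by norm_num)) hs0 h4 φ hφ
  have h6 := hA.2.1
  exact le_trans h5 (by rw [Nat.cast_ofNat]; exact h6)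

/-- Completeness of the second transformation. -/
theorem complete2 (hT : S_TEN) (hP : S_PROD) (hV : S_VISO) (h4 : S_V4) (hF : S_FLAT)
    (hW : S_WOP) (hO3 : S_OPT3) (hI : S_ISO) (hC : S_ENC) (hE : S_ENCOP) (hA : S_ARI2)
    (n : ℕ) {E : Matrix (Fin n → Bool) (Fin n → Bool) ℂ} (h : IsEffect E)
    (ψ : (Fin n → Bool) → ℂ) (hψ : normSq ψ = 1) (hc : 2 / 3 ≤ accept E ψ) :
    ∃ D : Finset (Fin 8192 × (((Fin 10 × Fin n) × (Fin 10 × Fin n)) × Bool × Fin (lq n)) → Bool),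
      D.Nonempty ∧ IsLowerSet (D : Set
        (Fin 8192 × (((Fin 10 × Fin n) × (Fin 10 × Fin n)) × Bool × Fin (lq n)) → Bool)) ∧
      2 / 3 ≤ accept (transform2 n E) (subsetState D) := by
  have hT1 : IsEffect (tens 10 E) := isEffect_tens hT _ h
  have hp : IsEffect (phased (tens 10 E)) := isEffect_phased hV hW hT1
  have h1 : accept (tens 10 E) (fun x : Fin 10 × Fin n → Bool =>
      ∏ j : Fin 10, ψ (fun i => x (j, i))) = accept E ψ ^ 10 :=
    (hP (Fin n) 10).1 E ψ h.1.isHermitian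
  have h2 : normSq (fun x : Fin 10 × Fin n → Bool =>
      ∏ j : Fin 10, ψ (fun i => x (j, i))) = 1 := by
    rw [(hP (Fin n) 10).2.1 ψ, hψ, one_pow]
  obtain ⟨D, hD, hDl, hD1⟩ := phased_encode_complete hV h4 hF hO3 hI hC hE (lq_pos n) hT1.1 hp.1
    _ h2
  rw [h1, Fintype.card_prod, Fintype.card_fin, Fintype.card_fin] at hD1
  have h3 : (2 / 3 : ℝ) ^ 10 ≤ accept E ψ ^ 10 := pow_le_pow_left₀ (by norm_num) hc 10
  have h5 : (1 / 96) * (2 / 3 : ℝ) ^ 10 ≤
      accept (encode (lq n) (phased (tens 10 E))) (subsetState D) := by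
    refine le_trans ?_ hD1
    have h6 := hA.1 n
    calc (1 / 96) * (2 / 3 : ℝ) ^ 10 = (1 / 2) / 48 * (2 / 3 : ℝ) ^ 10 := by norm_num
      _ ≤ (1 - (1 / 2 : ℝ) ^ lq n) ^ (10 * n * (10 * n)) / 48 * accept E ψ ^ 10 :=
        mul_le_mul (div_le_div_of_nonneg_right h6 (by norm_num)) h3 (by positivity)
          (div_nonneg (by linarith) (by norm_num))
  obtain ⟨D', hD', hDl', h7⟩ := or_complete hP 8192
    (isEffect_encode hI hE (lq_pos n) hp) hD hDl h5
  exact ⟨D', hD', hDl', two_thirds hA.2.2 h7⟩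

end Pool.Agent.W996.MW
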