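import Mathlib

/-!
# Project MW: witness states for QMA verifiers (operator form)

Statements of the parts.  Positions of bits are indexed by a finite type `κ`; basis states of the
register are `κ → Bool`; a state is `φ : (κ → Bool) → ℂ`.
-/

open scoped ComplexOrder Matrix

namespace Pool.Agent.W996.MW

variable {ι κ : Type*}

/-- The squared norm of a state. -/
noncomputable def normSq [Fintype ι] (φ : ι → ℂ) : ℝ := ∑ i, ‖φ i‖ ^ 2

/-- The acceptance probability of the state `φ` under the acceptance operator `E`. -/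
noncomputable def accept [Fintype ι] (E : Matrix ι ι ℂ) (φ : ι → ℂ) : ℝ :=
  (star φ ⬝ᵥ (E *ᵥ φ)).re

/-- `E` is an acceptance operator: `0 ≤ E ≤ 1`. -/
def IsEffect [Fintype ι] [DecidableEq ι] (E : Matrix ι ι ℂ) : Prop :=
  E.PosSemidef ∧ (1 - E).PosSemidef

/-- The subset state `|S⟩`. -/
noncomputable def subsetState [DecidableEq ι] (S : Finset ι) : ι → ℂ :=
  fun i => if i ∈ S then (((Real.sqrt (S.card : ℝ))⁻¹ : ℝ) : ℂ) else 0

/-- The `K`-fold tensor power of an operator on the register with positions `κ`. -/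
def tens (K : ℕ) (A : Matrix (κ → Bool) (κ → Bool) ℂ) :
    Matrix (Fin K × κ → Bool) (Fin K × κ → Bool) ℂ :=
  fun x y => ∏ j : Fin K, A (fun i => x (j, i)) (fun i => y (j, i))

/-- The set of bit strings all of whose `K` parts lie in `S`. -/
def spow [Fintype κ] [DecidableEq κ] (K : ℕ) (S : Finset (κ → Bool)) :
    Finset (Fin K × κ → Bool) :=
  Finset.univ.filter fun x => ∀ j : Fin K, (fun i => x (j, i)) ∈ S

/-- `y` is a code word of `x`: every bit `x i` is written as a nonempty set of marks in the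
row `(i, x i)`, and the row `(i, !x i)` is empty. -/
def Codes {l : ℕ} (x : κ → Bool) (y : κ × Bool × Fin l → Bool) : Prop :=
  (∀ i t, y (i, !x i, t) = false) ∧ ∀ i, ∃ t, y (i, x i, t) = true

open Classical in
/-- The encoding isometry: `|x⟩` goes to the uniform superposition of its code words. -/
noncomputable def enc [Fintype κ] (l : ℕ) : Matrix (κ × Bool × Fin l → Bool) (κ → Bool) ℂ :=
  fun y x => if Codes x y then
    (((Real.sqrt (((2 : ℝ) ^ l - 1) ^ Fintype.card κ))⁻¹ : ℝ) : ℂ) else 0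

/-- The encoded verifier `W A W*`. -/
noncomputable def encode [Fintype κ] [DecidableEq κ] (l : ℕ)
    (A : Matrix (κ → Bool) (κ → Bool) ℂ) :
    Matrix (κ × Bool × Fin l → Bool) (κ × Bool × Fin l → Bool) ℂ :=
  (enc l * A : Matrix (κ × Bool × Fin l → Bool) (κ → Bool) ℂ) *
    (enc l : Matrix (κ × Bool × Fin l → Bool) (κ → Bool) ℂ)ᴴ

/-- At least one of `K` independent runs accepts. -/
noncomputable def orPow [Fintype κ] [DecidableEq κ] (K : ℕ)
    (A : Matrix (κ → Bool) (κ → Bool) ℂ) :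
    Matrix (Fin K × κ → Bool) (Fin K × κ → Bool) ℂ :=
  1 - tens K (1 - A)

/-! ## The parts -/

/-- MW-LB. -/
def S_LB : Prop := ∀ (ι : Type) [Fintype ι] [DecidableEq ι] [Nonempty ι] (ψ : ι → ℂ),
  ∃ S : Finset ι, S.Nonempty ∧
    (S.card : ℝ) * normSq ψ ≤ (5 + Real.log (Fintype.card ι)) * ‖∑ i ∈ S, ψ i‖ ^ 2

/-- MW-UB. -/
def S_UB : Prop := ∀ J : ℕ, 1 ≤ J → ∃ ψ : Fin J × Fin 4 → ℂ, normSq ψ = 1 ∧
  ∀ S : Finset (Fin J × Fin 4),
    Real.log (J + 1) * ‖∑ i ∈ S, ψ i‖ ^ 2 ≤ (S.card : ℝ)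

/-- MW-TEN. -/
def S_TEN : Prop := ∀ (κ : Type) [Fintype κ] [DecidableEq κ] (K : ℕ)
    (A : Matrix (κ → Bool) (κ → Bool) ℂ),
  (A.PosSemidef → (tens K A).PosSemidef) ∧
  (∀ s : ℝ, 0 ≤ s → A.PosSemidef → ((s : ℂ) • (1 : Matrix _ _ ℂ) - A).PosSemidef →
    (((s ^ K : ℝ) : ℂ) • (1 : Matrix _ _ ℂ) - tens K A).PosSemidef) ∧
  (∀ c : ℝ, 0 ≤ c → (A - (c : ℂ) • (1 : Matrix _ _ ℂ)).PosSemidef →
    (tens K A - ((c ^ K : ℝ) : ℂ) • (1 : Matrix _ _ ℂ)).PosSemidef)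

/-- MW-PROD. -/
def S_PROD : Prop := ∀ (κ : Type) [Fintype κ] [DecidableEq κ] (K : ℕ),
  (∀ (A : Matrix (κ → Bool) (κ → Bool) ℂ) (φ : (κ → Bool) → ℂ), A.IsHermitian →
    accept (tens K A) (fun x => ∏ j : Fin K, φ (fun i => x (j, i))) = accept A φ ^ K) ∧
  (∀ φ : (κ → Bool) → ℂ,
    normSq (fun x : Fin K × κ → Bool => ∏ j : Fin K, φ (fun i => x (j, i))) = normSq φ ^ K) ∧
  (∀ S : Finset (κ → Bool),
    (fun x => ∏ j : Fin K, subsetState S (fun i => x (j, i))) = subsetState (spow K S)) ∧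
  (∀ S : Finset (κ → Bool), S.Nonempty → (spow K S).Nonempty) ∧
  (∀ S : Finset (κ → Bool), IsLowerSet (S : Set (κ → Bool)) →
    IsLowerSet (spow K S : Set (Fin K × κ → Bool)))

/-- MW-ISO: the encoding is an isometry. -/
def S_ISO : Prop := ∀ (κ : Type) [Fintype κ] [DecidableEq κ] (l : ℕ), 1 ≤ l →
  ((enc l : Matrix (κ × Bool × Fin l → Bool) (κ → Bool) ℂ)ᴴ *
    (enc l : Matrix (κ × Bool × Fin l → Bool) (κ → Bool) ℂ)) = 1

/-- MW-ENC: the lower set generated by the code words of `S`. -/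
def S_ENC : Prop := ∀ (κ : Type) [Fintype κ] [DecidableEq κ] (l : ℕ), 1 ≤ l →
  ∀ (S : Finset (κ → Bool)), S.Nonempty →
    ∃ D : Finset (κ × Bool × Fin l → Bool), D.Nonempty ∧
      IsLowerSet (D : Set (κ × Bool × Fin l → Bool)) ∧
      ∃ r : ℝ, 0 ≤ r ∧ (1 - (1 / 2 : ℝ) ^ l) ^ Fintype.card κ ≤ r ^ 2 ∧
        (enc l : Matrix (κ × Bool × Fin l → Bool) (κ → Bool) ℂ)ᴴ *ᵥ subsetState D =
          (r : ℂ) • subsetState S

/-- MW-ENCOP: an isometric encoding preserves operator bounds. -/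
def S_ENCOP : Prop := ∀ (κ : Type) [Fintype κ] [DecidableEq κ] (l : ℕ),
  ((enc l : Matrix (κ × Bool × Fin l → Bool) (κ → Bool) ℂ)ᴴ *
    (enc l : Matrix (κ × Bool × Fin l → Bool) (κ → Bool) ℂ)) = 1 →
  ∀ A : Matrix (κ → Bool) (κ → Bool) ℂ,
    (A.PosSemidef → (encode l A).PosSemidef) ∧
    (∀ s : ℝ, 0 ≤ s → A.PosSemidef → ((s : ℂ) • (1 : Matrix _ _ ℂ) - A).PosSemidef →
      ((s : ℂ) • (1 : Matrix _ _ ℂ) - encode l A).PosSemidef) ∧
    (∀ φ : (κ × Bool × Fin l → Bool) → ℂ, accept (encode l A) φ =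
      accept A ((enc l : Matrix (κ × Bool × Fin l → Bool) (κ → Bool) ℂ)ᴴ *ᵥ φ))

/-- MW-OPT: from one state to a subset state. -/
def S_OPT : Prop := S_LB → ∀ (ι : Type) [Fintype ι] [DecidableEq ι] [Nonempty ι]
    (A : Matrix ι ι ℂ) (ψ : ι → ℂ), A.PosSemidef → normSq ψ = 1 →
  ∃ S : Finset ι, S.Nonempty ∧
    accept A ψ ≤ (5 + Real.log (Fintype.card ι)) * accept A (subsetState S)

/-- The number of copies in the first step. -/
def kk (n : ℕ) : ℕ := 4 * Nat.clog 2 (n + 8)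

/-- The length of the rows of marks. -/
def ll (n : ℕ) : ℕ := Nat.clog 2 (2 * (kk n * n) + 2)

/-- The number of runs in the last step. -/
def KK (n : ℕ) : ℕ := 3 * (kk n * n + 5) * 3 ^ kk n / 2 ^ kk n + 1

/-- MW-ARI. -/
def S_ARI : Prop := ∀ n : ℕ,
  (1 / 2 : ℝ) ≤ (1 - (1 / 2 : ℝ) ^ ll n) ^ (kk n * n) ∧
  (KK n : ℝ) * (1 / 3 : ℝ) ^ kk n ≤ 1 / 3 ∧
  (1 - (1 / 2) * (2 / 3 : ℝ) ^ kk n / (5 + (kk n * n : ℕ))) ^ KK n ≤ 1 / 3 ∧
  KK n * (kk n * n * (2 * ll n)) ≤ 20000 * (n + 8) ^ 10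

end Pool.Agent.W996.MW
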